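import Pool.Agent.PolD.Greedy

/-! Density of good pairs `(a, d)`: in every long interval the proportions of good `a` are large.
The general theorem from the theorem on `G` groups of linear forms. -/

set_option autoImplicit false

namespace Pool.Agent.PolD

open Finset Pool.Agent.SL

/-- `r` groups of numbers with all pairs from different groups bad -/
structure St (Q Q' : ℕ) (s : ℕ → ℕ) (u : ℕ → ℤ) (r n : ℕ) (T : ℕ → Finset ℤ) : Prop where
  size : ∀ i < r, n ≤ (T i).card
  cls : ∀ i < r, ∀ t ∈ T i, t ≡ u i [ZMOD Q]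
  mod : ∀ i < r, ∀ t ∈ T i, ∀ t' ∈ T i, (Q' : ℤ) ∣ t - t'
  bad : ∀ i j, i < j → j < r → ∀ t ∈ T i, ∀ t' ∈ T j,
    t' - (s j / s i : ℕ) * t ≠ 0 ∧ ¬ GZ (t' - (s j / s i : ℕ) * t) (s j / s i)

theorem exists_st (G Q Q' : ℕ) (hQ : 0 < Q) (hQ' : 0 < Q') (hQQ : Q ∣ Q') (s : ℕ → ℕ) (u : ℕ → ℤ)
    (ε : ℝ) (hε : 0 < ε) (hε1 : ε ≤ 1)
    (hbad : ∀ H : ℕ, ∃ (x : ℤ) (X : ℕ), H ≤ X ∧ ∀ j, 1 ≤ j → j < G →
      ∑ i ∈ range j, (cnt (fun a => a ≡ u j - (s j / s i : ℕ) * u i [ZMOD Q] ∧ GZ a (s j / s i)) x X : ℝ) ≤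
        (1 - ε) * (X / Q)) :
    ∀ r, 1 ≤ r → r ≤ G → ∀ n, 0 < n → ∃ T, St Q Q' s u r n T := by
  classical
  intro r hr
  induction r, hr using Nat.le_induction with
  | base =>
    intro _ n hn
    have hQz : (Q' : ℤ) ≠ 0 := by exact_mod_cast hQ'.ne'
    refine ⟨fun _ => (range n).image fun k : ℕ => u 0 + (Q' : ℤ) * k, ?_, ?_, ?_, ?_⟩
    · intro i hi
      show n ≤ ((range n).image fun k : ℕ => u 0 + (Q' : ℤ) * k).card
      rw [Finset.card_image_of_injective, Finset.card_range]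
      intro a b hab
      have h1 : (Q' : ℤ) * a = Q' * b := by
        have : u 0 + (Q' : ℤ) * a = u 0 + (Q' : ℤ) * b := hab
        linarith
      exact_mod_cast mul_left_cancel₀ hQz h1
    · intro i hi t ht
      obtain ⟨k, _, rfl⟩ := Finset.mem_image.1 ht
      have h0 : i = 0 := by omega
      subst h0
      have h1 : (Q : ℤ) ∣ (Q' : ℤ) * k := Dvd.dvd.mul_right (by exact_mod_cast hQQ) _
      exact (Int.modEq_iff_dvd.2 (by
        have : u 0 - (u 0 + (Q' : ℤ) * k) = -((Q' : ℤ) * k) := by ring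
        rw [this]
        exact (dvd_neg).2 h1))
    · intro i hi t ht t' ht'
      obtain ⟨k, _, rfl⟩ := Finset.mem_image.1 ht
      obtain ⟨k', _, rfl⟩ := Finset.mem_image.1 ht'
      exact ⟨(k : ℤ) - k', by ring⟩
    · intro i j hij hj
      omega
  | succ r hr ih =>
    intro hrG n hn
    obtain ⟨N, hN⟩ := exists_nat_gt (2 * n / ε)
    have hnN : (n : ℝ) ≤ ε / 2 * N := by
      rw [div_lt_iff₀ hε] at hN
      linarith
    have hNpos : 0 < N := by
      rcases Nat.eq_zero_or_pos N with h | h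
      · rw [h] at hnN
        have : (0 : ℝ) < n := by exact_mod_cast hn
        simp only [Nat.cast_zero, mul_zero] at hnN
        linarith
      · exact h
    obtain ⟨T, hT⟩ := ih (by omega) N hNpos
    obtain ⟨Y, hYcard, hYc, hYQ', T', hT'⟩ := greedy_step r T (fun i => s r / s i) Q Q' hQ hQ' u (u r)
      (fun i hi => by rw [← Finset.card_pos]; exact lt_of_lt_of_le hNpos (hT.size i hi))
      hT.cls ε hε hε1 (fun H => by
        obtain ⟨x, X, hX, h⟩ := hbad H
        exact ⟨x, X, hX, h r hr (by omega)⟩) n hn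
    refine ⟨fun i => if i < r then T' i else Y, ?_, ?_, ?_, ?_⟩
    · intro i hi
      by_cases hir : i < r
      · simp only [hir, if_true]
        have h1 := (hT' i hir).2.1
        have h2 : (N : ℝ) ≤ (T i).card := by exact_mod_cast hT.size i hir
        have h3 : (n : ℝ) ≤ (T' i).card := by
          refine hnN.trans (le_trans ?_ h1)
          gcongr
        exact_mod_cast h3
      · simp only [hir, if_false]
        rw [hYcard]
    · intro i hi t ht
      by_cases hir : i < r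
      · simp only [hir, if_true] at ht
        exact hT.cls i hir t ((hT' i hir).1 ht)
      · simp only [hir, if_false] at ht
        have h0 : i = r := by omega
        subst h0
        exact hYc t ht
    · intro i hi t ht t' ht'
      by_cases hir : i < r
      · simp only [hir, if_true] at ht ht'
        exact hT.mod i hir t ((hT' i hir).1 ht) t' ((hT' i hir).1 ht')
      · simp only [hir, if_false] at ht ht'
        exact hYQ' t ht t' ht'
    · intro i j hij hj t ht t' ht'
      have hir : i < r := by omega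
      simp only [hir, if_true] at ht
      by_cases hjr : j < r
      · simp only [hjr, if_true] at ht'
        exact hT.bad i j hij hjr t ((hT' i hir).1 ht) t' ((hT' j hjr).1 ht')
      · simp only [hjr, if_false] at ht'
        have h0 : j = r := by omega
        subst h0
        exact (hT' i hir).2.2 t ht t' ht'

theorem enum (S : Finset ℤ) (n : ℕ) (h : n ≤ S.card) :
    ∃ f : ℕ → ℤ, (∀ i < n, f i ∈ S) ∧ ∀ i < n, ∀ j < n, f i = f j → i = j := by
  classical
  refine ⟨fun i => if hi : i < S.card then S.orderEmbOfFin rfl ⟨i, hi⟩ else 0, ?_, ?_⟩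
  · intro i hi
    have h1 : i < S.card := by omega
    simp only [h1, dif_pos]
    exact Finset.orderEmbOfFin_mem S rfl _
  · intro i hi j hj hij
    have h1 : i < S.card := by omega
    have h2 : j < S.card := by omega
    simp only [h1, h2, dif_pos] at hij
    have := (S.orderEmbOfFin rfl).injective hij
    exact congrArg Fin.val this

theorem big {ι : Type} (I : Finset ι) (p : ℕ) (hp : p.Prime) (hr : I.card < p) (s : ι → ℕ) (h : ι → ℤ)
    (hs : ∀ i ∈ I, ¬ p ∣ s i) : ∃ n : ℕ, ∀ i ∈ I, ¬ (p : ℤ) ∣ s i * n + h i := by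
  classical
  have hone : ∀ i ∈ I, ((range p).filter fun n : ℕ => (p : ℤ) ∣ s i * n + h i).card ≤ 1 := by
    intro i hi
    rw [card_le_one]
    intro a ha b hb
    rw [mem_filter, mem_range] at ha hb
    have h1 : (p : ℤ) ∣ s i * ((a : ℤ) - b) := by
      have := dvd_sub ha.2 hb.2
      have h2 : (s i : ℤ) * a + h i - (s i * b + h i) = s i * ((a : ℤ) - b) := by ring
      rwa [h2] at this
    have hps : ¬ (p : ℤ) ∣ s i := fun hc => hs i hi (by exact_mod_cast hc)
    have hpp : Prime (p : ℤ) := Nat.prime_iff_prime_int.mp hp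
    rcases hpp.dvd_or_dvd h1 with h2 | h2
    · exact absurd h2 hps
    · have h3 : a ≡ b [MOD p] := ((Nat.modEq_iff_dvd).mpr (by
        have : (b : ℤ) - a = -((a : ℤ) - b) := by ring
        rw [this]
        exact (dvd_neg).mpr h2))
      exact Nat.ModEq.eq_of_lt_of_lt h3 ha.1 hb.1
  have hU : (I.biUnion
      fun i => (range p).filter fun n : ℕ => (p : ℤ) ∣ s i * n + h i).card < (range p).card := by
    refine lt_of_le_of_lt card_biUnion_le ?_
    refine lt_of_le_of_lt (sum_le_card_nsmul _ _ 1 hone) ?_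
    simpa using hr
  obtain ⟨n, hn, hn'⟩ := exists_mem_notMem_of_card_lt_card hU
  refine ⟨n, fun i hi hd => hn' ?_⟩
  exact mem_biUnion.mpr ⟨i, hi, mem_filter.mpr ⟨hn, hd⟩⟩

/-- **The general density theorem.** -/
theorem density_general (G k : ℕ) (hG : 1 ≤ G) (hk : 1 ≤ k) (hD : DHLG G (G * k)) (Q : ℕ) (hQ : 0 < Q)
    (s : ℕ → ℕ) (u : ℕ → ℤ) (hs : ∀ i < G, 0 < s i) (hdvd : ∀ i j, i < j → j < G → s i ∣ s j)
    (hQG : ∀ p : ℕ, p.Prime → p ≤ G → p ∣ Q) (hQs : ∀ p : ℕ, p.Prime → ∀ i < G, p ∣ s i → p ∣ Q)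
    (hu : ∀ i < G, IsCoprime (u i) (Q : ℤ)) (ε : ℝ) (hε : 0 < ε) :
    ∃ H : ℕ, ∀ (x : ℤ) (X : ℕ), H ≤ X → ∃ j, 1 ≤ j ∧ j < G ∧ (1 - ε) * (X / Q) <
      ∑ i ∈ range j, (cnt (fun a => a ≡ u j - (s j / s i : ℕ) * u i [ZMOD Q] ∧ GZ a (s j / s i)) x X : ℝ) := by
  classical
  by_contra hcon
  push Not at hcon
  -- a small ε
  obtain ⟨ε', hε'⟩ : ∃ ε', ε' = min ε 1 := ⟨_, rfl⟩
  have hε'0 : 0 < ε' := by rw [hε']; exact lt_min hε one_pos
  have hε'1 : ε' ≤ 1 := by rw [hε']; exact min_le_right _ _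
  have hε'ε : ε' ≤ ε := by rw [hε']; exact min_le_left _ _
  obtain ⟨Q', hQ'⟩ : ∃ Q', Q' = Q * (G * k).factorial := ⟨_, rfl⟩
  have hQ'0 : 0 < Q' := by rw [hQ']; exact Nat.mul_pos hQ (Nat.factorial_pos _)
  obtain ⟨T, hT⟩ := exists_st G Q Q' hQ hQ'0 (by rw [hQ']; exact dvd_mul_right _ _) s u ε' hε'0 hε'1
    (fun H => by
      obtain ⟨x, X, hX, h⟩ := hcon H
      refine ⟨x, X, hX, fun j hj1 hjG => (h j hj1 hjG).trans ?_⟩
      have h1 : (0 : ℝ) ≤ (X : ℝ) / Q := by positivity
      nlinarith) G hG le_rfl k hk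
  have hen : ∀ g, ∃ f : ℕ → ℤ, g < G → (∀ i < k, f i ∈ T g) ∧ ∀ i < k, ∀ j < k, f i = f j → i = j := by
    intro g
    by_cases hg : g < G
    · obtain ⟨f, hf⟩ := enum (T g) k (hT.size g hg)
      exact ⟨f, fun _ => hf⟩
    · exact ⟨fun _ => 0, fun h => absurd h hg⟩
  choose h hh using hen
  refine gch_lt G (G * k) k hk rfl hD s h ⟨hs, ?_, ?_, ?_⟩
  · intro g hg i hi j hj hij
    exact (hh g hg).2 i hi j hj hij
  · intro p hp
    by_cases hpQ : p ∣ Q
    · refine ⟨0, fun g hg i hi hd => ?_⟩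
      have h1 := hT.cls g hg (h g i) ((hh g hg).1 i hi)
      have h2 : (p : ℤ) ∣ h g i := by simpa using hd
      have h3 : (p : ℤ) ∣ (Q : ℤ) := by exact_mod_cast hpQ
      have h4 : (p : ℤ) ∣ u g := by
        have h5 := (h1.dvd : (Q : ℤ) ∣ u g - h g i)
        have h6 := dvd_add (h3.trans h5) h2
        simpa using h6
      have h7 := (hu g hg).isUnit_of_dvd' h4 h3
      rw [Int.isUnit_iff_natAbs_eq, Int.natAbs_natCast] at h7
      exact hp.one_lt.ne' h7
    · have hps : ∀ i < G, ¬ p ∣ s i := fun i hi hd => hpQ (hQs p hp i hi hd)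
      have hpG : G < p := by
        by_contra hle
        exact hpQ (hQG p hp (by omega))
      by_cases hpQ' : p ∣ Q'
      · obtain ⟨n, hn⟩ := big (range G) p hp (by rw [Finset.card_range]; exact hpG) s (fun g => h g 0)
          (fun i hi => hps i (Finset.mem_range.1 hi))
        refine ⟨n, fun g hg i hi hd => hn g (Finset.mem_range.2 hg) ?_⟩
        have h1 := hT.mod g hg (h g 0) ((hh g hg).1 0 (by omega)) (h g i) ((hh g hg).1 i hi)
        have h2 : (p : ℤ) ∣ h g 0 - h g i := (by exact_mod_cast hpQ' : (p : ℤ) ∣ (Q' : ℤ)).trans h1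
        have h3 := dvd_add hd h2
        have h4 : (s g : ℤ) * n + h g i + (h g 0 - h g i) = s g * n + h g 0 := by ring
        rwa [h4] at h3
      · have hpk : G * k < p := by
          by_contra hle
          apply hpQ'
          rw [hQ']
          exact Dvd.dvd.mul_left ((Nat.Prime.dvd_factorial hp).2 (by omega)) _
        obtain ⟨n, hn⟩ := big (range G ×ˢ range k) p hp
          (by rw [Finset.card_product, Finset.card_range, Finset.card_range]; exact hpk)
          (fun gi => s gi.1) (fun gi => h gi.1 gi.2)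
          (fun gi hgi => hps gi.1 (Finset.mem_range.1 (Finset.mem_product.1 hgi).1))
        exact ⟨n, fun g hg i hi =>
          hn (g, i) (Finset.mem_product.2 ⟨Finset.mem_range.2 hg, Finset.mem_range.2 hi⟩)⟩
  · intro g g' hgg hg'
    have hg : g < G := by omega
    have hd := hdvd g g' hgg hg'
    refine ⟨s g' / s g, Nat.div_pos (Nat.le_of_dvd (hs g' hg') hd) (hs g hg), (Nat.div_mul_cancel hd).symm, ?_⟩
    intro i hi j hj
    exact hT.bad g g' hgg hg' _ ((hh g hg).1 i hi) _ ((hh g' hg').1 j hj)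

end Pool.Agent.PolD
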