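import Pool.Agent.PolD.Greedy2

/-! The differences of primes that occur infinitely often: at least a third of the even numbers in every long
interval, from the theorem on four groups of linear forms. -/

set_option autoImplicit false

namespace Pool.Agent.PolD

open Finset Pool.Agent.SL

theorem polignac_two (k : ℕ) (hk : 1 ≤ k) (hD : DHLG 4 (4 * k)) (σ : ℤ) (hσ : IsCoprime σ 6) (ε : ℝ)
    (hε : 0 < ε) :
    ∃ H : ℕ, ∀ (x : ℤ) (X : ℕ), H ≤ X → (1 - ε) * (X / 6) <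
      (cnt (fun a => a ≡ 0 [ZMOD 6] ∧ GZ a 1) x X : ℝ) + 2 * cnt (fun a => a ≡ 2 * σ [ZMOD 6] ∧ GZ a 1) x X := by
  obtain ⟨H, hH⟩ := density_general 4 k (by norm_num) hk hD 6 (by norm_num) (fun _ => 1)
    (fun i => if i < 2 then -σ else σ) (fun _ _ => Nat.one_pos) (fun _ _ _ _ => dvd_rfl)
    (fun p hp hp4 => by
      have h8 : ∀ r : ℕ, r ≤ 4 → Nat.Prime r → r ∣ 6 := by decide
      exact h8 p hp4 hp)
    (fun p hp i _ hd => absurd (Nat.dvd_one.1 hd) hp.one_lt.ne')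
    (fun i _ => by
      show IsCoprime (if i < 2 then -σ else σ) ((6 : ℕ) : ℤ)
      split_ifs
      · exact hσ.neg_left
      · exact hσ) ε hε
  refine ⟨H, fun x X hX => ?_⟩
  obtain ⟨j, hj1, hj4, hj⟩ := hH x X hX
  have h0 : (0 : ℝ) ≤ (cnt (fun a => a ≡ 0 [ZMOD 6] ∧ GZ a 1) x X : ℝ) := Nat.cast_nonneg _
  have h2 : (0 : ℝ) ≤ (cnt (fun a => a ≡ 2 * σ [ZMOD 6] ∧ GZ a 1) x X : ℝ) := Nat.cast_nonneg _
  have e0 : σ - -σ = 2 * σ := by ring
  have e1 : -σ - -σ = 0 := by ring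
  interval_cases j <;>
  simp only [Finset.sum_range_succ, Finset.sum_range_zero, Nat.div_self Nat.one_pos, Nat.cast_one, one_mul,
    Nat.cast_ofNat, zero_add, Nat.one_lt_ofNat, if_true, lt_irrefl, if_false,
    show ¬ (3 : ℕ) < 2 by norm_num, show (0 : ℕ) < 2 by norm_num, e0, e1, sub_self] at hj <;> linarith

theorem polignac_sixth (k : ℕ) (hk : 1 ≤ k) (hD : DHLG 4 (4 * k)) (ε : ℝ) (hε : 0 < ε) :
    ∃ H : ℕ, ∀ x X : ℕ, H ≤ X → (1 / 6 - ε) * X <
      ({a : ℕ | x < a ∧ a ≤ x + X ∧ {q : ℕ | q.Prime ∧ (a + q).Prime}.Infinite}.ncard : ℝ) := by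
  classical
  obtain ⟨H1, hH1⟩ := polignac_two k hk hD 1 (isCoprime_one_left) ε hε
  obtain ⟨H2, hH2⟩ := polignac_two k hk hD (-1) (isCoprime_one_left.neg_left) ε hε
  refine ⟨max (max H1 H2) 1, fun x X hX => ?_⟩
  have h1 := hH1 x X ((le_max_left _ _).trans ((le_max_left _ _).trans hX))
  have h2 := hH2 x X ((le_max_right _ _).trans ((le_max_left _ _).trans hX))
  have hX1 : (1 : ℝ) ≤ X := by exact_mod_cast (le_max_right _ _).trans hX
  have hset : ({a : ℕ | x < a ∧ a ≤ x + X ∧ {q : ℕ | q.Prime ∧ (a + q).Prime}.Infinite}.ncard) =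
      cnt (fun a => GZ a 1) x X := by
    rw [cnt_eq]
    rw [← Set.ncard_image_of_injective _ (Nat.cast_injective (R := ℤ)), ← Set.ncard_coe_finset]
    congr 1
    ext b
    simp only [Set.mem_image, Set.mem_setOf_eq, Finset.coe_filter, Finset.mem_Ioc]
    have hGZ : ∀ a : ℕ, {q : ℕ | q.Prime ∧ (a + q).Prime}.Infinite ↔ GZ (a : ℤ) 1 := by
      intro a
      unfold GZ
      have : {q : ℕ | q.Prime ∧ (a + q).Prime} =
          {q : ℕ | q.Prime ∧ ∃ p : ℕ, p.Prime ∧ (p : ℤ) = (a : ℤ) + ((1 : ℕ) : ℤ) * q} := by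
        ext q
        simp only [Set.mem_setOf_eq]
        refine and_congr_right fun _ => ?_
        constructor
        · intro h
          exact ⟨a + q, h, by push_cast; ring⟩
        · rintro ⟨p, hp, hpq⟩
          have : p = a + q := by
            have : (p : ℤ) = ((a + q : ℕ) : ℤ) := by rw [hpq]; push_cast; ring
            exact_mod_cast this
          rwa [← this]
      rw [this]
    constructor
    · rintro ⟨a, ⟨ha1, ha2, ha3⟩, rfl⟩
      exact ⟨⟨by exact_mod_cast ha1, by exact_mod_cast ha2⟩, (hGZ a).1 ha3⟩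
    · rintro ⟨⟨hb1, hb2⟩, hb3⟩
      have hb0 : 0 ≤ b := le_trans (Int.natCast_nonneg x) hb1.le
      obtain ⟨a, rfl⟩ := Int.eq_ofNat_of_zero_le hb0
      exact ⟨a, ⟨by exact_mod_cast hb1, by exact_mod_cast hb2, (hGZ a).2 hb3⟩, rfl⟩
  rw [hset]
  have h3 : cnt (fun a => a ≡ 0 [ZMOD 6] ∧ GZ a 1) x X + cnt (fun a => a ≡ 2 * 1 [ZMOD 6] ∧ GZ a 1) x X +
      cnt (fun a => a ≡ 2 * -1 [ZMOD 6] ∧ GZ a 1) x X ≤ cnt (fun a => GZ a 1) x X := by
    rw [cnt_eq, cnt_eq, cnt_eq, cnt_eq]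
    rw [← Finset.card_union_of_disjoint, ← Finset.card_union_of_disjoint]
    · refine Finset.card_le_card fun a ha => ?_
      rw [Finset.mem_union, Finset.mem_union, Finset.mem_filter, Finset.mem_filter, Finset.mem_filter] at ha
      rw [Finset.mem_filter]
      rcases ha with (ha | ha) | ha
      · exact ⟨ha.1, ha.2.2⟩
      · exact ⟨ha.1, ha.2.2⟩
      · exact ⟨ha.1, ha.2.2⟩
    · rw [Finset.disjoint_left]
      intro a ha hb
      rw [Finset.mem_union, Finset.mem_filter, Finset.mem_filter] at ha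
      rw [Finset.mem_filter] at hb
      have h5 := hb.2.1
      unfold Int.ModEq at h5
      rcases ha with ha | ha
      · have h6 := ha.2.1
        unfold Int.ModEq at h6
        rw [h6] at h5
        exact absurd h5 (by decide)
      · have h6 := ha.2.1
        unfold Int.ModEq at h6
        rw [h6] at h5
        exact absurd h5 (by decide)
    · rw [Finset.disjoint_left]
      intro a ha hb
      rw [Finset.mem_filter] at ha hb
      have h5 := hb.2.1
      have h6 := ha.2.1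
      unfold Int.ModEq at h5 h6
      rw [h6] at h5
      exact absurd h5 (by decide)
  have h4 : (cnt (fun a => a ≡ 0 [ZMOD 6] ∧ GZ a 1) x X : ℝ) + cnt (fun a => a ≡ 2 * 1 [ZMOD 6] ∧ GZ a 1) x X +
      cnt (fun a => a ≡ 2 * -1 [ZMOD 6] ∧ GZ a 1) x X ≤ cnt (fun a => GZ a 1) x X := by exact_mod_cast h3
  have h5 : 0 < ε * X := mul_pos hε (by linarith)
  have e1 : (1 - ε) * ((X : ℝ) / 6) = (1 / 6 - ε) * X + 5 / 6 * (ε * X) := by ring
  rw [e1] at h1 h2
  generalize (cnt (fun a => a ≡ 0 [ZMOD 6] ∧ GZ a 1) x X : ℝ) = A0 at *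
  generalize (cnt (fun a => a ≡ 2 * 1 [ZMOD 6] ∧ GZ a 1) x X : ℝ) = A2 at *
  generalize (cnt (fun a => a ≡ 2 * -1 [ZMOD 6] ∧ GZ a 1) x X : ℝ) = A4 at *
  generalize (cnt (fun a => GZ a 1) x X : ℝ) = AA at *
  linarith

end Pool.Agent.PolD
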