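import Pool.Agent.PolD.Every3c
import Pool.Agent.PolD.Sixth
import Pool.Agent.SL4.Dhl4

/-! Unconditional forms of the density theorems, in elementary terms. -/

set_option autoImplicit false

namespace Pool.Agent.PolD

open Finset Pool.Agent.SL

theorem cnt_ncard (P : ℤ → Prop) (x : ℤ) (X : ℕ) : {E : ℤ | x < E ∧ E ≤ x + X ∧ P E}.ncard = cnt P x X := by
  classical
  rw [cnt_eq, ← Set.ncard_coe_finset]
  congr 1
  ext E
  simp only [Set.mem_setOf_eq, Finset.coe_filter, Finset.mem_Ioc]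
  tauto

/-- four groups of `k` forms -/
theorem dhlg4 : ∃ k : ℕ, 1 ≤ k ∧ DHLG 4 (4 * k) := by
  obtain ⟨k, hk, ⟨k', hkk⟩, hD⟩ := dhl4
  rw [hkk] at hD
  refine ⟨k', ?_, hD⟩
  rcases Nat.eq_zero_or_pos k' with h0 | h0
  · rw [h0, Nat.mul_zero] at hkk; omega
  · exact h0

theorem sixth_out (ε : ℝ) (hε : 0 < ε) :
    ∃ H : ℕ, ∀ x X : ℕ, H ≤ X → (1 / 6 - ε) * X <
      ({a : ℕ | x < a ∧ a ≤ x + X ∧ {q : ℕ | q.Prime ∧ (a + q).Prime}.Infinite}.ncard : ℝ) := by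
  obtain ⟨k, hk, hD⟩ := dhlg4
  exact polignac_sixth k hk hD ε hε

theorem every_out (S : Set ℕ) (h1S : 1 ∈ S) (hmul : ∀ m ∈ S, ∀ n ∈ S, m * n ∈ S) (hpos : ∀ m ∈ S, 0 < m)
    (h3 : ∃ m ∈ S, 3 ∣ m) (ε : ℝ) (hε : 0 < ε) :
    ∃ (t : Fin 3 → ℕ) (B : ℕ), (∀ i, t i ∈ S) ∧ (∀ i, (t i).primeFactors = (t 0).primeFactors) ∧
      ∀ d ∈ S, ∀ a : ℤ, Int.gcd a d = 1 → ∀ (x : ℤ) (X : ℕ), B ≤ X →
      (1 - ε) * ({E : ℤ | x < E ∧ E ≤ x + X ∧ Int.gcd (a + d * E) (d * t 0) = 1 ∧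
          2 ∣ (a + d * E) * (d * t 0)}.ncard : ℝ) ≤
        ∑ i, ({E : ℤ | x < E ∧ E ≤ x + X ∧ GoodP (a + d * E) (d * t i)}.ncard : ℝ) := by
  obtain ⟨k, hk, hD⟩ := dhlg4
  obtain ⟨ε', hε'⟩ : ∃ ε', ε' = min ε 1 := ⟨_, rfl⟩
  have hε'0 : 0 < ε' := by rw [hε']; exact lt_min hε one_pos
  have hε'1 : ε' ≤ 1 := by rw [hε']; exact min_le_right _ _
  have hε'ε : ε' ≤ ε := by rw [hε']; exact min_le_left _ _
  obtain ⟨t, B, htS, htp, h⟩ := every3 k hk hD S h1S hmul hpos h3 ε' hε'0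
  refine ⟨t, B, htS, htp, fun d hd a had x X hX => ?_⟩
  have h1 := h d hd a had x X hX
  rw [cnt_ncard (fun E => Int.gcd (a + d * E) (d * t 0) = 1 ∧ 2 ∣ (a + d * E) * (d * t 0)) x X]
  rw [Finset.sum_congr rfl (fun i _ => by
    rw [cnt_ncard (fun E => GoodP (a + d * E) (d * t i)) x X])]
  refine le_trans ?_ h1
  have h2 : cnt (fun E => Int.gcd (a + d * E) (d * t 0) = 1 ∧ 2 ∣ (a + d * E) * (d * t 0)) x X ≤
      cnt (fun E => Int.gcd (a + d * E) (t 0) = 1 ∧ 2 ∣ (a + d * E) * (d * t 0)) x X := by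
    refine cnt_mono (fun E hE => ⟨?_, hE.2⟩) x X
    have h3 := hE.1
    rw [← Int.isCoprime_iff_gcd_eq_one] at h3 ⊢
    exact IsCoprime.of_mul_right_right h3
  have h3 : (cnt (fun E => Int.gcd (a + d * E) (d * t 0) = 1 ∧ 2 ∣ (a + d * E) * (d * t 0)) x X : ℝ) ≤
      cnt (fun E => Int.gcd (a + d * E) (t 0) = 1 ∧ 2 ∣ (a + d * E) * (d * t 0)) x X := by exact_mod_cast h2
  have h4 : (0 : ℝ) ≤ (cnt (fun E => Int.gcd (a + d * E) (d * t 0) = 1 ∧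
    2 ∣ (a + d * E) * (d * t 0)) x X : ℝ) := Nat.cast_nonneg _
  calc _ ≤ (1 - ε') * (cnt (fun E => Int.gcd (a + d * E) (d * t 0) = 1 ∧
        2 ∣ (a + d * E) * (d * t 0)) x X : ℝ) := mul_le_mul_of_nonneg_right (by linarith) h4
    _ ≤ _ := mul_le_mul_of_nonneg_left h3 (by linarith)

end Pool.Agent.PolD
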