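import Pool.Agent.SL.EveryG

/-! Gaps between CONSECUTIVE primes in residue classes: from the theorem on `G` groups of linear forms. -/

set_option autoImplicit false

namespace Pool.Agent.PolD

open Finset Pool.Agent.SL

/-- `a` is the gap between a prime `p ≡ b (mod q)` and the next prime, for infinitely many `p` -/
def CG (q b a : ℕ) : Prop :=
  {p : ℕ | p.Prime ∧ p ≡ b [MOD q] ∧ (p + a).Prime ∧ ∀ m, p < m → m < p + a → ¬ m.Prime}.Infinite

/-- one of finitely many events happens infinitely often -/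
theorem pigeon2 (k : ℕ) (P : Fin k → Fin k → ℕ → Prop)
    (h : ∀ x : ℕ, ∃ n ≥ x, ∃ i j, P i j n) : ∃ i j, ∀ x : ℕ, ∃ n ≥ x, P i j n := by
  by_contra hcon
  push Not at hcon
  choose f hf using hcon
  obtain ⟨n, hn, i, j, hP⟩ := h (∑ i, ∑ j, f i j)
  refine hf i j n ?_ hP
  refine le_trans ?_ hn
  refine le_trans ?_ (single_le_sum (f := fun i => ∑ j, f i j) (fun _ _ => Nat.zero_le _)
    (mem_univ i))
  exact single_le_sum (f := fun j => f i j) (fun _ _ => Nat.zero_le _) (mem_univ j)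

/-- the auxiliary primes -/
theorem exists_crt (q : ℕ) (hq : 0 < q) (J : Finset ℤ) (ℓ : ℤ → ℕ) (hℓ : ∀ j, (ℓ j).Prime)
    (hinj : ∀ i j, ℓ i = ℓ j → i = j) (hq' : ∀ j, ¬ ℓ j ∣ q) :
    ∃ c : ℤ, (q : ℤ) ∣ c ∧ ∀ j ∈ J, (ℓ j : ℤ) ∣ c + j := by
  classical
  have key : ∃ c : ℤ, ((q : ℤ) ∣ c ∧ ∀ j ∈ J, (ℓ j : ℤ) ∣ c + j) := by
    induction J using Finset.induction_on with
    | empty => exact ⟨0, dvd_zero _, fun j hj => absurd hj (Finset.notMem_empty j)⟩
    | insert j J hj ih =>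
      obtain ⟨c, hc, hcJ⟩ := ih
      set M : ℕ := q * ∏ i ∈ J, ℓ i with hM
      have hcop : IsCoprime (M : ℤ) (ℓ j : ℤ) := by
        rw [Nat.isCoprime_iff_coprime]
        refine ((Nat.Prime.coprime_iff_not_dvd (hℓ j)).2 ?_).symm
        intro hd
        rcases (hℓ j).dvd_mul.1 hd with h1 | h1
        · exact hq' j h1
        · obtain ⟨i, hi, h2⟩ := ((hℓ j).prime.dvd_finsetProd_iff _).1 h1
          have h3 := (Nat.prime_dvd_prime_iff_eq (hℓ j) (hℓ i)).1 h2
          exact hj ((hinj j i h3) ▸ hi)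
      obtain ⟨a, b, hab⟩ := hcop
      refine ⟨c + M * (-(c + j) * a), ?_, ?_⟩
      · refine dvd_add hc (Dvd.dvd.mul_right ?_ _)
        rw [hM]
        push_cast
        exact dvd_mul_right _ _
      · intro i hi
        rcases Finset.mem_insert.1 hi with rfl | hi
        · refine ⟨(c + i) * b, ?_⟩
          have h1 : a * (M : ℤ) = 1 - b * ℓ i := by linarith
          calc c + M * (-(c + i) * a) + i = (c + i) - (c + i) * (a * M) := by ring
            _ = (c + i) - (c + i) * (1 - b * ℓ i) := by rw [h1]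
            _ = (ℓ i : ℤ) * ((c + i) * b) := by ring
        · have h1 : (ℓ i : ℤ) ∣ M := by
            have : ℓ i ∣ M := Dvd.dvd.mul_left (Finset.dvd_prod_of_mem _ hi) _
            exact_mod_cast this
          have h2 : c + M * (-(c + j) * a) + i = (c + i) + M * (-(c + j) * a) := by ring
          rw [h2]
          exact dvd_add (hcJ i hi) (Dvd.dvd.mul_right h1 _)
  exact key

/-- **two consecutive primes in different groups** -/
theorem cons_cluster (G k : ℕ) (hk : 1 ≤ k) (hG : 1 ≤ G) (hD : DHLG G (G * k)) (q b : ℕ) (hq : 0 < q)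
    (hb : Nat.Coprime b q) (h : ℕ → ℕ → ℤ)
    (hinj : ∀ g < G, ∀ i < k, ∀ g' < G, ∀ i' < k, h g i = h g' i' → g = g' ∧ i = i')
    (hcls : ∀ g < G, ∀ i < k, h g i ≡ b [ZMOD q])
    (hadm : ∀ p : ℕ, p.Prime → ∃ n : ℕ, ∀ g < G, ∀ i < k, ¬ (p : ℤ) ∣ n + h g i) :
    ∃ g < G, ∃ g' < G, g ≠ g' ∧ ∃ i < k, ∃ i' < k, h g i < h g' i' ∧ CG q b (h g' i' - h g i).toNat := by
  classical
  have hGk : 0 < G * k := Nat.mul_pos hG hk
  have hmod : ∀ t, t % k < k := fun t => Nat.mod_lt _ hk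
  have hdiv : ∀ t < G * k, t / k < G := fun t ht => Nat.div_lt_of_lt_mul (by rwa [mul_comm] at ht)
  let idx : ℕ → ℤ := fun t => h (t / k) (t % k)
  have hidx : ∀ t < G * k, ∀ t' < G * k, idx t = idx t' → t = t' := by
    intro t ht t' ht' he
    obtain ⟨h1, h2⟩ := hinj _ (hdiv t ht) _ (hmod t) _ (hdiv t' ht') _ (hmod t') he
    rw [← Nat.div_add_mod t k, ← Nat.div_add_mod t' k, h1, h2]
  obtain ⟨N, hN⟩ : ∃ N : ℕ, ∀ t < G * k, (idx t).natAbs ≤ N :=
    ⟨∑ t ∈ range (G * k), (idx t).natAbs, fun t ht =>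
      single_le_sum (f := fun t => (idx t).natAbs) (fun _ _ => Nat.zero_le _) (Finset.mem_range.2 ht)⟩
  have hN1 : ∀ t < G * k, -(N : ℤ) ≤ idx t ∧ idx t ≤ N := fun t ht => by
    have := hN t ht
    omega
  let S : Finset ℤ := (range (G * k)).image idx
  let J : Finset ℤ := (Finset.Icc (-(N : ℤ)) N) \ S
  let R : ℕ := 2 * N + q + 1
  let e : ℤ → ℕ := fun j => if 0 ≤ j then 2 * j.toNat else 2 * (-j).toNat + 1
  have he : ∀ i j, e i = e j → i = j := by
    intro i j hij
    show i = j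
    have h1 : (if 0 ≤ i then 2 * i.toNat else 2 * (-i).toNat + 1) =
      (if 0 ≤ j then 2 * j.toNat else 2 * (-j).toNat + 1) := hij
    split_ifs at h1 <;> omega
  let ℓ : ℤ → ℕ := fun j => Nat.nth Nat.Prime (R + e j)
  have hℓp : ∀ j, (ℓ j).Prime := fun j => Nat.prime_nth_prime _
  have hℓR : ∀ j, R < ℓ j := fun j => by
    have := Nat.add_two_le_nth_prime (R + e j)
    show R < Nat.nth Nat.Prime (R + e j)
    omega
  have hℓi : ∀ i j, ℓ i = ℓ j → i = j := by
    intro i j hij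
    have h1 := (Nat.nth_injective Nat.infinite_setOf_prime) hij
    exact he i j (by omega)
  have hℓq : ∀ j, ¬ ℓ j ∣ q := fun j hd => by
    have h1 := Nat.le_of_dvd hq hd
    have h2 := hℓR j
    have : R = 2 * N + q + 1 := rfl
    omega
  obtain ⟨c0, hc0q, hc0J⟩ := exists_crt q hq J ℓ hℓp hℓi hℓq
  obtain ⟨M, hM⟩ : ∃ M : ℕ, M = q * ∏ j ∈ J, ℓ j := ⟨_, rfl⟩
  have hMpos : 0 < M := by
    rw [hM]; exact Nat.mul_pos hq (Finset.prod_pos fun j _ => (hℓp j).pos)
  have hqM : q ∣ M := by rw [hM]; exact dvd_mul_right _ _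
  have hℓM : ∀ j ∈ J, ℓ j ∣ M := fun j hj => by
    rw [hM]; exact Dvd.dvd.mul_left (Finset.dvd_prod_of_mem _ hj) _
  obtain ⟨L, hL⟩ : ∃ L : ℕ, ∀ j ∈ J, ℓ j < L :=
    ⟨(∑ j ∈ J, ℓ j) + 1, fun j hj => Nat.lt_succ_of_le
      (single_le_sum (f := fun j => ℓ j) (fun _ _ => Nat.zero_le _) hj)⟩
  obtain ⟨c, hc⟩ : ∃ c : ℕ, (c : ℤ) = c0 + M * (c0.natAbs + L + N + 1 : ℕ) := by
    refine ⟨(c0 + M * (c0.natAbs + L + N + 1 : ℕ)).toNat, Int.toNat_of_nonneg ?_⟩
    have h1 : (1 : ℤ) ≤ M := by exact_mod_cast hMpos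
    have h2 : (0 : ℤ) ≤ ((c0.natAbs + L + N + 1 : ℕ) : ℤ) := Int.natCast_nonneg _
    have h3 : ((c0.natAbs + L + N + 1 : ℕ) : ℤ) ≤ M * (c0.natAbs + L + N + 1 : ℕ) := by nlinarith
    generalize (M : ℤ) * ((c0.natAbs + L + N + 1 : ℕ) : ℤ) = W at h3 ⊢
    omega
  have hcL : (L : ℤ) + N + 1 ≤ c := by
    have h1 : (1 : ℤ) ≤ M := by exact_mod_cast hMpos
    have h2 : (0 : ℤ) ≤ ((c0.natAbs + L + N + 1 : ℕ) : ℤ) := Int.natCast_nonneg _
    have h3 : ((c0.natAbs + L + N + 1 : ℕ) : ℤ) ≤ M * (c0.natAbs + L + N + 1 : ℕ) := by nlinarith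
    rw [hc]
    generalize (M : ℤ) * ((c0.natAbs + L + N + 1 : ℕ) : ℤ) = W at h3 ⊢
    omega
  have hMz : ∀ d : ℕ, d ∣ M → (d : ℤ) ∣ (M : ℤ) := fun d hd => by exact_mod_cast hd
  have hcq : (q : ℤ) ∣ c := by
    rw [hc]; exact dvd_add hc0q (Dvd.dvd.mul_right (hMz q hqM) _)
  have hcJ : ∀ j ∈ J, (ℓ j : ℤ) ∣ c + j := fun j hj => by
    have h1 : (c : ℤ) + j = (c0 + j) + M * (c0.natAbs + L + N + 1 : ℕ) := by rw [hc]; ring
    rw [h1]
    exact dvd_add (hc0J j hj) (Dvd.dvd.mul_right (hMz _ (hℓM j hj)) _)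
  -- the forms
  let s : Fin (G * k) → ℕ := fun _ => M
  let f : Fin (G * k) → ℕ := fun t => ((c : ℤ) + idx t).toNat
  have hf : ∀ t : Fin (G * k), (f t : ℤ) = c + idx t := fun t => Int.toNat_of_nonneg (by
    have := hN1 t t.2
    omega)
  let grp : Fin (G * k) → Fin G := fun t => ⟨(t : ℕ) / k, hdiv t t.2⟩
  have hgrp : ∀ g : Fin G, G * (univ.filter fun i => grp i = g).card ≤ G * k := by
    intro g
    refine Nat.mul_le_mul_left _ ?_
    have h1 : ((univ.filter fun i => grp i = g).image fun i : Fin (G * k) => (i : ℕ) % k) ⊆ range k := by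
      intro y hy
      obtain ⟨i, _, rfl⟩ := Finset.mem_image.1 hy
      exact Finset.mem_range.2 (hmod _)
    have h2 := Finset.card_le_card h1
    rw [Finset.card_range, Finset.card_image_of_injOn] at h2
    · exact h2
    · intro i hi j hj hij
      have hi' := (Finset.mem_filter.1 hi).2
      have hj' := (Finset.mem_filter.1 hj).2
      have h3 : (i : ℕ) / k = (j : ℕ) / k := by
        have h4 : grp i = grp j := hi'.trans hj'.symm
        exact congrArg Fin.val h4
      have h5 : (i : ℕ) % k = (j : ℕ) % k := hij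
      apply Fin.ext
      rw [← Nat.div_add_mod (i : ℕ) k, ← Nat.div_add_mod (j : ℕ) k, h3, h5]
  have hdet : ∀ i j, i ≠ j → s i * f j ≠ s j * f i := by
    intro i j hij he
    have h1 : f j = f i := Nat.eq_of_mul_eq_mul_left hMpos he
    have h2 : (f j : ℤ) = f i := by exact_mod_cast h1
    rw [hf, hf] at h2
    exact hij (Fin.ext (hidx i i.2 j j.2 (by linarith)))
  have hadm' : ∀ p : ℕ, p.Prime → ∃ n : ℕ, ∀ i, ¬ p ∣ s i * n + f i := by
    intro p hp
    by_cases hpM : p ∣ M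
    · refine ⟨0, fun i hd => ?_⟩
      have hd' : (p : ℤ) ∣ c + idx i := by
        have h1 : p ∣ f i := by simpa using hd
        have h2 : (p : ℤ) ∣ f i := by exact_mod_cast h1
        rwa [hf] at h2
      rw [hM] at hpM
      rcases hp.dvd_mul.1 hpM with h1 | h1
      · have h2 : (p : ℤ) ∣ q := by exact_mod_cast h1
        have h3 : (p : ℤ) ∣ idx i := by
          have := dvd_sub hd' (h2.trans hcq)
          simpa using this
        have h4 := hcls _ (hdiv i i.2) _ (hmod i)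
        have h5 : (p : ℤ) ∣ b := by
          have h6 := dvd_add (h2.trans h4.dvd) h3
          have h7 : (b : ℤ) - h ((i : ℕ) / k) ((i : ℕ) % k) + idx i = b := by
            show (b : ℤ) - idx i + idx i = b
            ring
          rwa [h7] at h6
        have h6 : p ∣ b := by exact_mod_cast h5
        have h7 := Nat.dvd_gcd h6 h1
        rw [hb] at h7
        exact hp.one_lt.ne' (Nat.dvd_one.1 h7)
      · obtain ⟨j, hj, h2⟩ := (hp.prime.dvd_finsetProd_iff _).1 h1
        have h3 := (Nat.prime_dvd_prime_iff_eq hp (hℓp j)).1 h2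
        subst h3
        have h4 := dvd_sub hd' (hcJ j hj)
        have h5 : (c : ℤ) + idx i - (c + j) = idx i - j := by ring
        rw [h5] at h4
        have h6 : idx i - j ≠ 0 := by
          intro h7
          have h8 : j ∈ S := Finset.mem_image.2 ⟨i, Finset.mem_range.2 i.2, by linarith⟩
          exact (Finset.mem_sdiff.1 hj).2 h8
        have h7 := Int.le_of_dvd (Int.natAbs_pos.2 h6 |> fun h => by exact_mod_cast h) (Int.dvd_natAbs.2 h4)
        have h8 := hN1 i i.2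
        have h9 := Finset.mem_Icc.1 (Finset.mem_sdiff.1 hj).1
        have h10 := hℓR j
        have h11 : R = 2 * N + q + 1 := rfl
        omega
    · obtain ⟨n0, hn0⟩ := hadm p hp
      have hcop : IsCoprime (M : ℤ) (p : ℤ) := by
        rw [Nat.isCoprime_iff_coprime]
        exact ((Nat.Prime.coprime_iff_not_dvd hp).2 hpM).symm
      obtain ⟨a, a', haa⟩ := hcop
      have hp0 : (0 : ℤ) < p := by exact_mod_cast hp.pos
      refine ⟨((((n0 : ℤ) - c) * a) % p).toNat, fun i hd => ?_⟩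
      have h1 : ((((((n0 : ℤ) - c) * a) % p).toNat : ℕ) : ℤ) = (((n0 : ℤ) - c) * a) % p :=
        Int.toNat_of_nonneg (Int.emod_nonneg _ hp0.ne')
      have h2 : (p : ℤ) ∣ M * ((((n0 : ℤ) - c) * a) % p) + (c + idx i) := by
        have h3 : (p : ℤ) ∣ ((s i * ((((n0 : ℤ) - c) * a) % p).toNat + f i : ℕ) : ℤ) := by exact_mod_cast hd
        push_cast at h3
        rw [h1, hf] at h3
        exact h3
      have h3 : (((n0 : ℤ) - c) * a) % p = ((n0 : ℤ) - c) * a - p * ((((n0 : ℤ) - c) * a) / p) := by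
        have := Int.emod_add_mul_ediv (((n0 : ℤ) - c) * a) p
        linarith
      refine hn0 _ (hdiv i i.2) _ (hmod i) ?_
      have h4 : (n0 : ℤ) + h ((i : ℕ) / k) ((i : ℕ) % k) =
          (M * ((((n0 : ℤ) - c) * a) % p) + (c + idx i)) +
            p * (M * ((((n0 : ℤ) - c) * a) / p) + a' * ((n0 : ℤ) - c)) := by
        rw [h3]
        have h5 : a * (M : ℤ) = 1 - a' * p := by linarith
        show (n0 : ℤ) + idx i = _
        calc (n0 : ℤ) + idx i = ((n0 : ℤ) - c) * (a * M) + ((n0 : ℤ) - c) * (1 - a * M) + c + idx i := by ring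
          _ = ((n0 : ℤ) - c) * (a * M) + ((n0 : ℤ) - c) * (a' * p) + c + idx i := by
              rw [h5]; ring
          _ = _ := by ring
      rw [h4]
      exact dvd_add h2 (dvd_mul_right _ _)
  -- the cluster
  have hmain : ∀ x : ℕ, ∃ n ≥ x, ∃ i j : Fin (G * k), grp i ≠ grp j ∧ idx i < idx j ∧ (M * n + f i).Prime ∧
      (M * n + f j).Prime ∧ ∀ m, M * n + f i < m → m < M * n + f j → ¬ m.Prime := by
    intro x
    obtain ⟨n, hn, i0, j0, hij0, hi0, hj0⟩ := hD s f grp hgrp (fun _ => hMpos) hdet hadm' x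
    refine ⟨n, hn, ?_⟩
    let Pr : Finset (Fin (G * k) × Fin (G * k)) := univ.filter fun ij =>
      grp ij.1 ≠ grp ij.2 ∧ idx ij.1 < idx ij.2 ∧ (M * n + f ij.1).Prime ∧ (M * n + f ij.2).Prime
    have hne : Pr.Nonempty := by
      have h1 : idx i0 ≠ idx j0 := fun h => hij0 (by rw [Fin.ext (hidx i0 i0.2 j0 j0.2 h)])
      rcases lt_or_gt_of_ne h1 with h2 | h2
      · exact ⟨(i0, j0), Finset.mem_filter.2 ⟨Finset.mem_univ _, hij0, h2, hi0, hj0⟩⟩
      · exact ⟨(j0, i0), Finset.mem_filter.2 ⟨Finset.mem_univ _, hij0.symm, h2, hj0, hi0⟩⟩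
    obtain ⟨⟨i, j⟩, hij, hmin⟩ := Finset.exists_min_image Pr (fun ij => idx ij.2 - idx ij.1) hne
    obtain ⟨-, h1, h2, h3, h4⟩ := Finset.mem_filter.1 hij
    refine ⟨i, j, h1, h2, h3, h4, fun m hm1 hm2 hm => ?_⟩
    have hm1' : (M : ℤ) * n + (c + idx i) < m := by
      have : ((M * n + f i : ℕ) : ℤ) < m := by exact_mod_cast hm1
      push_cast at this
      rwa [hf] at this
    have hm2' : (m : ℤ) < (M : ℤ) * n + (c + idx j) := by
      have : (m : ℤ) < ((M * n + f j : ℕ) : ℤ) := by exact_mod_cast hm2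
      push_cast at this
      rwa [hf] at this
    obtain ⟨z, hz⟩ : ∃ z : ℤ, z = m - M * n - c := ⟨_, rfl⟩
    have hz1 : idx i < z := by rw [hz]; linarith
    have hz2 : z < idx j := by rw [hz]; linarith
    have hzN : z ∈ Finset.Icc (-(N : ℤ)) N := by
      have h5 := hN1 i i.2
      have h6 := hN1 j j.2
      rw [Finset.mem_Icc]
      omega
    by_cases hzS : z ∈ S
    · obtain ⟨l, hl, hlz⟩ := Finset.mem_image.1 hzS
      have hlk := Finset.mem_range.1 hl
      let l' : Fin (G * k) := ⟨l, hlk⟩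
      have hl' : idx l' = z := hlz
      have hml : M * n + f l' = m := by
        have h5 : ((M * n + f l' : ℕ) : ℤ) = m := by
          push_cast
          rw [hf, hl', hz]
          ring
        exact_mod_cast h5
      by_cases hg : grp i = grp l'
      · have h5 : grp l' ≠ grp j := fun h => h1 (hg.trans h)
        have h6 := hmin (l', j) (Finset.mem_filter.2 ⟨Finset.mem_univ _, h5, by
          show idx l' < idx j
          rw [hl']; exact hz2, by rw [hml]; exact hm, h4⟩)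
        have h7 : idx j - idx i ≤ idx j - idx l' := h6
        rw [hl'] at h7
        linarith
      · have h6 := hmin (i, l') (Finset.mem_filter.2 ⟨Finset.mem_univ _, hg, by
          show idx i < idx l'
          rw [hl']; exact hz1, h3, by rw [hml]; exact hm⟩)
        have h7 : idx j - idx i ≤ idx l' - idx i := h6
        rw [hl'] at h7
        linarith
    · have hzJ : z ∈ J := Finset.mem_sdiff.2 ⟨hzN, hzS⟩
      have h5 : (ℓ z : ℤ) ∣ m := by
        have h6 : (m : ℤ) = (c + z) + M * n := by rw [hz]; ring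
        rw [h6]
        exact dvd_add (hcJ z hzJ) (Dvd.dvd.mul_right (hMz _ (hℓM z hzJ)) _)
      have h6 : ℓ z ∣ m := by exact_mod_cast h5
      have h7 := (Nat.prime_dvd_prime_iff_eq (hℓp z) hm).1 h6
      have h8 := hL z hzJ
      have h9 := (Finset.mem_Icc.1 hzN).1
      have h10 : (0 : ℤ) ≤ (M : ℤ) * n := by positivity
      have h11 : (m : ℤ) = (c + z) + M * n := by rw [hz]; ring
      omega
  obtain ⟨i, j, hij⟩ := pigeon2 (G * k) (fun i j n => grp i ≠ grp j ∧ idx i < idx j ∧ (M * n + f i).Prime ∧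
      (M * n + f j).Prime ∧ ∀ m, M * n + f i < m → m < M * n + f j → ¬ m.Prime) hmain
  obtain ⟨_, _, hg, hlt, _⟩ := hij 0
  refine ⟨_, hdiv i i.2, _, hdiv j j.2, fun h => hg (Fin.ext h), _, hmod i, _, hmod j, hlt, ?_⟩
  have hsub : ∀ n : ℕ, M * n + f i + (idx j - idx i).toNat = M * n + f j := by
    intro n
    have h1 : ((idx j - idx i).toNat : ℤ) = idx j - idx i := Int.toNat_of_nonneg (by linarith)
    have h2 : ((M * n + f i + (idx j - idx i).toNat : ℕ) : ℤ) = ((M * n + f j : ℕ) : ℤ) := by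
      push_cast
      rw [h1, hf, hf]
      ring
    exact_mod_cast h2
  show CG q b (idx j - idx i).toNat
  unfold CG
  refine Set.infinite_of_not_bddAbove fun ⟨B, hB⟩ => ?_
  obtain ⟨n, hn, _, _, h3, h4, h5⟩ := hij (B + 1)
  have hmem : M * n + f i ∈ {p : ℕ | p.Prime ∧ p ≡ b [MOD q] ∧ (p + (idx j - idx i).toNat).Prime ∧
      ∀ m, p < m → m < p + (idx j - idx i).toNat → ¬ m.Prime} := by
    refine ⟨h3, ?_, ?_, ?_⟩
    · rw [← Int.natCast_modEq_iff]
      push_cast
      rw [hf]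
      have h6 := hcls _ (hdiv i i.2) _ (hmod i)
      refine (Int.modEq_iff_dvd.2 ?_)
      have h7 : (b : ℤ) - ((M : ℤ) * n + (c + idx i)) = (b - h ((i : ℕ) / k) ((i : ℕ) % k)) - (M * n + c) := by
        show (b : ℤ) - ((M : ℤ) * n + (c + idx i)) = (b - idx i) - (M * n + c)
        ring
      rw [h7]
      exact dvd_sub h6.dvd (dvd_add (Dvd.dvd.mul_right (hMz q hqM) _) hcq)
    · rw [hsub]; exact h4
    · rw [hsub]; exact h5
  have h6 := hB hmem
  have h7 : n ≤ M * n := Nat.le_mul_of_pos_left _ hMpos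
  omega

end Pool.Agent.PolD
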