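import Pool.Agent.PolD.Every3

/-! The greedy density argument for an arbitrary property `P` of differences: if among `G` groups of `k` integers
(admissible, in given residue classes) some difference of two numbers in different groups has the property `P`, then
the numbers with the property `P` have large density in every long interval. -/

set_option autoImplicit false

namespace Pool.Agent.PolD

open Finset Pool.Agent.SL

/-- the greedy step for a property `P` of differences -/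
theorem greedy_stepP (P : ℤ → Prop) (r : ℕ) (T : ℕ → Finset ℤ) (Q Q' : ℕ) (hQ : 0 < Q) (hQ' : 0 < Q')
    (w : ℕ → ℤ) (c : ℤ) (hT : ∀ i < r, (T i).Nonempty) (hcl : ∀ i < r, ∀ t ∈ T i, t ≡ w i [ZMOD Q])
    (ε : ℝ) (hε : 0 < ε) (hε1 : ε ≤ 1)
    (hbad : ∀ H : ℕ, ∃ (x : ℤ) (X : ℕ), H ≤ X ∧
      ∑ i ∈ range r, (cnt (fun a => a ≡ c - w i [ZMOD Q] ∧ P a) x X : ℝ) ≤ (1 - ε) * (X / Q))
    (n : ℕ) (hn : 0 < n) :
    ∃ Y : Finset ℤ, Y.card = n ∧ (∀ y ∈ Y, y ≡ c [ZMOD Q]) ∧ (∀ y ∈ Y, ∀ y' ∈ Y, (Q' : ℤ) ∣ y - y') ∧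
      ∃ T' : ℕ → Finset ℤ, ∀ i < r, T' i ⊆ T i ∧ ε / 2 * (T i).card ≤ ((T' i).card : ℝ) ∧
        ∀ t ∈ T' i, ∀ y ∈ Y, y - t ≠ 0 ∧ ¬ P (y - t) := by
  classical
  let B : ℕ → ℤ → ℤ → Prop := fun _ t y => y - t = 0 ∨ P (y - t)
  obtain ⟨C, hC⟩ : ∃ C : ℝ, C = ∑ i ∈ range r, ∑ t ∈ T i, (1 + (t.natAbs : ℝ)) := ⟨_, rfl⟩
  have hC0 : 0 ≤ C := by rw [hC]; positivity
  have hQr : (0 : ℝ) < Q := by exact_mod_cast hQ
  obtain ⟨K, hK⟩ : ∃ K : ℕ, K = ((range Q') ×ˢ ((range r).sigma T).powerset).card := ⟨_, rfl⟩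
  obtain ⟨H, hH⟩ := exists_nat_gt ((K * n + 2 + C) * (2 * Q / ε))
  obtain ⟨x, X, hHX, hcnt⟩ := hbad H
  set A : Finset ℤ := (Ioc x (x + X)).filter fun y => y ≡ c [ZMOD Q] with hA
  have hAcard : (X : ℝ) / Q - 1 ≤ A.card := by
    have := cnt_class Q hQ c x X
    rwa [cnt_eq] at this
  have hcardT : ∀ i < r, (0 : ℝ) < (T i).card := fun i hi => by exact_mod_cast (hT i hi).card_pos
  have hone : ∀ i < r, ∀ t ∈ T i, ((A.filter fun y => B i t y).card : ℝ) ≤
      (cnt (fun a => a ≡ c - w i [ZMOD Q] ∧ P a) x X : ℝ) + (1 + (t.natAbs : ℝ)) := by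
    intro i hi t ht
    have h1 : (A.filter fun y => B i t y).card ≤
        cnt (fun y => y = t ∨ ((y - t) ≡ c - w i [ZMOD Q] ∧ P (y - t))) x X := by
      rw [cnt_eq]
      refine Finset.card_le_card fun y hy => ?_
      rw [hA, Finset.mem_filter, Finset.mem_filter] at hy
      rw [Finset.mem_filter]
      refine ⟨hy.1.1, ?_⟩
      rcases hy.2 with h2 | h2
      · exact Or.inl (by linarith)
      · exact Or.inr ⟨Int.ModEq.sub hy.1.2 (hcl i hi t ht), h2⟩
    have h2 := h1.trans (cnt_or _ _ _ _)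
    have h3 := cnt_single t x X
    have h4 := cnt_shift (fun a => a ≡ c - w i [ZMOD Q] ∧ P a) x X t
    have h5 : (A.filter fun y => B i t y).card ≤
        cnt (fun a => a ≡ c - w i [ZMOD Q] ∧ P a) x X + (1 + t.natAbs) := by
      refine h2.trans ?_
      omega
    exact_mod_cast h5
  have havg : ∑ i ∈ range r, (∑ t ∈ T i, ((A.filter fun y => B i t y).card : ℝ)) / (T i).card ≤
      (1 - ε) * A.card + (C + 1) := by
    have h1 : ∑ i ∈ range r, (∑ t ∈ T i, ((A.filter fun y => B i t y).card : ℝ)) / (T i).card ≤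
        ∑ i ∈ range r, ((cnt (fun a => a ≡ c - w i [ZMOD Q] ∧ P a) x X : ℝ) +
          ∑ t ∈ T i, (1 + (t.natAbs : ℝ))) := by
      refine Finset.sum_le_sum fun i hi => ?_
      rw [Finset.mem_range] at hi
      rw [div_le_iff₀ (hcardT i hi)]
      have h3 := Finset.sum_le_sum fun t ht => hone i hi t ht
      refine h3.trans ?_
      rw [Finset.sum_add_distrib, Finset.sum_const, nsmul_eq_mul, add_mul]
      have h4 : (1 : ℝ) ≤ (T i).card := by exact_mod_cast (hT i hi).card_pos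
      have h5 : (0 : ℝ) ≤ ∑ t ∈ T i, (1 + (t.natAbs : ℝ)) := by positivity
      have h6 := mul_le_mul_of_nonneg_left h4 h5
      rw [mul_one] at h6
      rw [mul_comm ((T i).card : ℝ)]
      linarith
    rw [Finset.sum_add_distrib, ← hC] at h1
    have h2 : (1 - ε) * ((X : ℝ) / Q) ≤ (1 - ε) * (A.card + 1) :=
      mul_le_mul_of_nonneg_left (by linarith) (by linarith)
    nlinarith
  have hbig : (((range Q') ×ˢ ((range r).sigma T).powerset).card : ℝ) * n + (C + 1) ≤ ε / 2 * A.card := by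
    rw [← hK]
    have h2 : (H : ℝ) ≤ X := by exact_mod_cast hHX
    have h3 : (K * n + 2 + C) * (2 * Q / ε) < X := hH.trans_le h2
    have h4 : (K * n + 2 + C) < (X : ℝ) / Q * (ε / 2) := by
      have h5 : (X : ℝ) / Q * (ε / 2) = X / (2 * Q / ε) := by field_simp
      rw [h5, lt_div_iff₀ (by positivity)]
      exact h3
    have h5 : (X : ℝ) / Q * (ε / 2) ≤ (A.card + 1) * (ε / 2) :=
      mul_le_mul_of_nonneg_right (by linarith) (by linarith)
    linarith
  obtain ⟨Y, hYA, hYc, hYQ, T', hT'⟩ := abs_step r T B A Q' hQ' hT ε hε hε1 (C + 1) n hn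
    (by convert havg) hbig
  refine ⟨Y, hYc, fun y hy => (Finset.mem_filter.1 (hYA hy)).2, hYQ, T', fun i hi => ?_⟩
  obtain ⟨h1, h2, h3⟩ := hT' i hi
  refine ⟨h1, h2, fun t ht y hy => ?_⟩
  have h4 := h3 t ht y hy
  exact ⟨fun h => h4 (Or.inl h), fun h => h4 (Or.inr h)⟩

/-- `r` groups of numbers, the differences of numbers of different groups do not have the property `P` -/
structure StP (P : ℤ → Prop) (Q Q' : ℕ) (u : ℕ → ℤ) (r n : ℕ) (T : ℕ → Finset ℤ) : Prop where
  size : ∀ i < r, n ≤ (T i).card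
  cls : ∀ i < r, ∀ t ∈ T i, t ≡ u i [ZMOD Q]
  mod : ∀ i < r, ∀ t ∈ T i, ∀ t' ∈ T i, (Q' : ℤ) ∣ t - t'
  bad : ∀ i j, i < j → j < r → ∀ t ∈ T i, ∀ t' ∈ T j, t' - t ≠ 0 ∧ ¬ P (t' - t)

theorem exists_stP (P : ℤ → Prop) (G Q Q' : ℕ) (hQ : 0 < Q) (hQ' : 0 < Q') (hQQ : Q ∣ Q') (u : ℕ → ℤ)
    (ε : ℝ) (hε : 0 < ε) (hε1 : ε ≤ 1)
    (hbad : ∀ H : ℕ, ∃ (x : ℤ) (X : ℕ), H ≤ X ∧ ∀ j, 1 ≤ j → j < G →
      ∑ i ∈ range j, (cnt (fun a => a ≡ u j - u i [ZMOD Q] ∧ P a) x X : ℝ) ≤ (1 - ε) * (X / Q)) :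
    ∀ r, 1 ≤ r → r ≤ G → ∀ n, 0 < n → ∃ T, StP P Q Q' u r n T := by
  classical
  intro r hr
  induction r, hr using Nat.le_induction with
  | base =>
    intro _ n hn
    have hQz : (Q' : ℤ) ≠ 0 := by exact_mod_cast hQ'.ne'
    refine ⟨fun _ => (range n).image fun k : ℕ => u 0 + (Q' : ℤ) * k, ?_, ?_, ?_, ?_⟩
    · intro i hi
      show n ≤ ((range n).image fun k : ℕ => u 0 + (Q' : ℤ) * k).card
      rw [Finset.card_image_of_injective, Finset.card_range]
      intro a b hab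
      have h1 : (Q' : ℤ) * a = Q' * b := by
        have : u 0 + (Q' : ℤ) * a = u 0 + (Q' : ℤ) * b := hab
        linarith
      exact_mod_cast mul_left_cancel₀ hQz h1
    · intro i hi t ht
      obtain ⟨k, _, rfl⟩ := Finset.mem_image.1 ht
      have h0 : i = 0 := by omega
      subst h0
      have h1 : (Q : ℤ) ∣ (Q' : ℤ) * k := Dvd.dvd.mul_right (by exact_mod_cast hQQ) _
      exact (Int.modEq_iff_dvd.2 (by
        have : u 0 - (u 0 + (Q' : ℤ) * k) = -((Q' : ℤ) * k) := by ring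
        rw [this]
        exact (dvd_neg).2 h1))
    · intro i hi t ht t' ht'
      obtain ⟨k, _, rfl⟩ := Finset.mem_image.1 ht
      obtain ⟨k', _, rfl⟩ := Finset.mem_image.1 ht'
      exact ⟨(k : ℤ) - k', by ring⟩
    · intro i j hij hj
      omega
  | succ r hr ih =>
    intro hrG n hn
    obtain ⟨N, hN⟩ := exists_nat_gt (2 * n / ε)
    have hnN : (n : ℝ) ≤ ε / 2 * N := by
      rw [div_lt_iff₀ hε] at hN
      linarith
    have hNpos : 0 < N := by
      rcases Nat.eq_zero_or_pos N with h | h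
      · rw [h] at hnN
        have : (0 : ℝ) < n := by exact_mod_cast hn
        simp only [Nat.cast_zero, mul_zero] at hnN
        linarith
      · exact h
    obtain ⟨T, hT⟩ := ih (by omega) N hNpos
    obtain ⟨Y, hYcard, hYc, hYQ', T', hT'⟩ := greedy_stepP P r T Q Q' hQ hQ' u (u r)
      (fun i hi => by rw [← Finset.card_pos]; exact lt_of_lt_of_le hNpos (hT.size i hi))
      hT.cls ε hε hε1 (fun H => by
        obtain ⟨x, X, hX, h⟩ := hbad H
        exact ⟨x, X, hX, h r hr (by omega)⟩) n hn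
    refine ⟨fun i => if i < r then T' i else Y, ?_, ?_, ?_, ?_⟩
    · intro i hi
      by_cases hir : i < r
      · simp only [hir, if_true]
        have h1 := (hT' i hir).2.1
        have h2 : (N : ℝ) ≤ (T i).card := by exact_mod_cast hT.size i hir
        have h3 : (n : ℝ) ≤ (T' i).card := by
          refine hnN.trans (le_trans ?_ h1)
          gcongr
        exact_mod_cast h3
      · simp only [hir, if_false]
        rw [hYcard]
    · intro i hi t ht
      by_cases hir : i < r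
      · simp only [hir, if_true] at ht
        exact hT.cls i hir t ((hT' i hir).1 ht)
      · simp only [hir, if_false] at ht
        have h0 : i = r := by omega
        subst h0
        exact hYc t ht
    · intro i hi t ht t' ht'
      by_cases hir : i < r
      · simp only [hir, if_true] at ht ht'
        exact hT.mod i hir t ((hT' i hir).1 ht) t' ((hT' i hir).1 ht')
      · simp only [hir, if_false] at ht ht'
        exact hYQ' t ht t' ht'
    · intro i j hij hj t ht t' ht'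
      have hir : i < r := by omega
      simp only [hir, if_true] at ht
      by_cases hjr : j < r
      · simp only [hjr, if_true] at ht'
        exact hT.bad i j hij hjr t ((hT' i hir).1 ht) t' ((hT' j hjr).1 ht')
      · simp only [hjr, if_false] at ht'
        have h0 : j = r := by omega
        subst h0
        exact (hT' i hir).2.2 t ht t' ht'

/-- **The general density theorem for a property of differences.** -/
theorem density_P (P : ℤ → Prop) (G k : ℕ) (hG : 1 ≤ G) (hk : 1 ≤ k) (Q : ℕ) (hQ : 0 < Q) (u : ℕ → ℤ)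
    (hQG : ∀ p : ℕ, p.Prime → p ≤ G → p ∣ Q) (hu : ∀ i < G, IsCoprime (u i) (Q : ℤ))
    (hD : ∀ h : ℕ → ℕ → ℤ, (∀ g < G, ∀ i < k, h g i ≡ u g [ZMOD Q]) →
      (∀ g < G, ∀ i < k, ∀ j < k, h g i = h g j → i = j) →
      (∀ p : ℕ, p.Prime → ∃ n : ℕ, ∀ g < G, ∀ i < k, ¬ (p : ℤ) ∣ n + h g i) →
      ∃ g g', g < g' ∧ g' < G ∧ ∃ i < k, ∃ i' < k, h g' i' - h g i = 0 ∨ P (h g' i' - h g i))
    (ε : ℝ) (hε : 0 < ε) :
    ∃ H : ℕ, ∀ (x : ℤ) (X : ℕ), H ≤ X → ∃ j, 1 ≤ j ∧ j < G ∧ (1 - ε) * (X / Q) <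
      ∑ i ∈ range j, (cnt (fun a => a ≡ u j - u i [ZMOD Q] ∧ P a) x X : ℝ) := by
  classical
  by_contra hcon
  push Not at hcon
  obtain ⟨ε', hε'⟩ : ∃ ε', ε' = min ε 1 := ⟨_, rfl⟩
  have hε'0 : 0 < ε' := by rw [hε']; exact lt_min hε one_pos
  have hε'1 : ε' ≤ 1 := by rw [hε']; exact min_le_right _ _
  have hε'ε : ε' ≤ ε := by rw [hε']; exact min_le_left _ _
  obtain ⟨Q', hQ'⟩ : ∃ Q', Q' = Q * (G * k).factorial := ⟨_, rfl⟩
  have hQ'0 : 0 < Q' := by rw [hQ']; exact Nat.mul_pos hQ (Nat.factorial_pos _)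
  obtain ⟨T, hT⟩ := exists_stP P G Q Q' hQ hQ'0 (by rw [hQ']; exact dvd_mul_right _ _) u ε' hε'0 hε'1
    (fun H => by
      obtain ⟨x, X, hX, h⟩ := hcon H
      refine ⟨x, X, hX, fun j hj1 hjG => (h j hj1 hjG).trans ?_⟩
      have h1 : (0 : ℝ) ≤ (X : ℝ) / Q := by positivity
      nlinarith) G hG le_rfl k hk
  have hen : ∀ g, ∃ f : ℕ → ℤ, g < G → (∀ i < k, f i ∈ T g) ∧ ∀ i < k, ∀ j < k, f i = f j → i = j := by
    intro g
    by_cases hg : g < G
    · obtain ⟨f, hf⟩ := enum (T g) k (hT.size g hg)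
      exact ⟨f, fun _ => hf⟩
    · exact ⟨fun _ => 0, fun h => absurd h hg⟩
  choose h hh using hen
  obtain ⟨g, g', hgg, hg', i, hi, i', hi', hP⟩ := hD h
    (fun g hg i hi => hT.cls g hg (h g i) ((hh g hg).1 i hi))
    (fun g hg => (hh g hg).2) (fun p hp => by
      by_cases hpQ : p ∣ Q
      · refine ⟨0, fun g hg i hi hd => ?_⟩
        have h1 := hT.cls g hg (h g i) ((hh g hg).1 i hi)
        have h2 : (p : ℤ) ∣ h g i := by simpa using hd
        have h3 : (p : ℤ) ∣ (Q : ℤ) := by exact_mod_cast hpQ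
        have h4 : (p : ℤ) ∣ u g := by
          have h5 := (h1.dvd : (Q : ℤ) ∣ u g - h g i)
          have h6 := dvd_add (h3.trans h5) h2
          simpa using h6
        have h7 := (hu g hg).isUnit_of_dvd' h4 h3
        rw [Int.isUnit_iff_natAbs_eq, Int.natAbs_natCast] at h7
        exact hp.one_lt.ne' h7
      · have hpG : G < p := by
          by_contra hle
          exact hpQ (hQG p hp (by omega))
        have hp1 : ¬ p ∣ 1 := fun h => hp.one_lt.ne' (Nat.dvd_one.1 h)
        by_cases hpQ' : p ∣ Q'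
        · obtain ⟨n, hn⟩ := big (range G) p hp (by rw [Finset.card_range]; exact hpG) (fun _ => 1) (fun g => h g 0)
            (fun i hi => hp1)
          refine ⟨n, fun g hg i hi hd => hn g (Finset.mem_range.2 hg) ?_⟩
          have h1 := hT.mod g hg (h g 0) ((hh g hg).1 0 (by omega)) (h g i) ((hh g hg).1 i hi)
          have h2 : (p : ℤ) ∣ h g 0 - h g i := (by exact_mod_cast hpQ' : (p : ℤ) ∣ (Q' : ℤ)).trans h1
          have h3 := dvd_add hd h2
          have h4 : (n : ℤ) + h g i + (h g 0 - h g i) = ((1 : ℕ) : ℤ) * n + h g 0 := by push_cast; ring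
          rwa [h4] at h3
        · have hpk : G * k < p := by
            by_contra hle
            apply hpQ'
            rw [hQ']
            exact Dvd.dvd.mul_left ((Nat.Prime.dvd_factorial hp).2 (by omega)) _
          obtain ⟨n, hn⟩ := big (range G ×ˢ range k) p hp
            (by rw [Finset.card_product, Finset.card_range, Finset.card_range]; exact hpk)
            (fun _ => 1) (fun gi => h gi.1 gi.2) (fun gi hgi => hp1)
          refine ⟨n, fun g hg i hi hd =>
            hn (g, i) (Finset.mem_product.2 ⟨Finset.mem_range.2 hg, Finset.mem_range.2 hi⟩) ?_⟩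
          simpa using hd)
  have hb := hT.bad g g' hgg hg' _ ((hh g (by omega)).1 i hi) _ ((hh g' hg').1 i' hi')
  rcases hP with hP | hP
  · exact hb.1 hP
  · exact hb.2 hP

end Pool.Agent.PolD
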