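import Pool.Agent.PolD.ConsA
import Pool.Agent.PolD.ConsB

/-! A third of the even numbers (of the multiples of `lcm 2 q`) are gaps between consecutive primes `≡ b (mod q)`
infinitely often. -/

set_option autoImplicit false

namespace Pool.Agent.PolD

open Finset Pool.Agent.SL

theorem exists_u (q b : ℕ) (hb : Nat.Coprime b q) (σ : ℤ) (hσ : IsCoprime σ 3) :
    ∃ u : ℤ, u ≡ b [ZMOD q] ∧ IsCoprime u ((Nat.lcm 6 q : ℕ) : ℤ) ∧ (¬ 3 ∣ q → u ≡ σ [ZMOD 3]) := by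
  -- the parity
  obtain ⟨t2, ht2⟩ : ∃ t2 : ℤ, ∀ z : ℤ, ¬ (2 : ℤ) ∣ b + q * (3 * t2 + 4 * z) := by
    by_cases hq2 : 2 ∣ q
    · refine ⟨0, fun z hd => ?_⟩
      have h1 : ¬ 2 ∣ b := fun h => by
        have := Nat.dvd_gcd h hq2
        rw [hb] at this
        omega
      obtain ⟨q', rfl⟩ := hq2
      have h2 : (2 : ℤ) ∣ b := by
        have h3 : (2 : ℤ) ∣ ((2 * q' : ℕ) : ℤ) * (3 * 0 + 4 * z) :=
          Dvd.dvd.mul_right (by push_cast; exact dvd_mul_right _ _) _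
        have := dvd_sub hd h3
        simpa using this
      exact h1 (by exact_mod_cast h2)
    · refine ⟨if 2 ∣ b then 1 else 0, fun z hd => ?_⟩
      obtain ⟨w, hw⟩ := hd
      have hq1 : (q : ℤ) % 2 = 1 := by omega
      obtain ⟨q', hq'⟩ : ∃ q' : ℤ, (q : ℤ) = 2 * q' + 1 := ⟨(q : ℤ) / 2, by omega⟩
      split_ifs at hw with h2
      · have h3 : (b : ℤ) + (2 * q' + 1) * (3 * 1 + 4 * z) = 2 * w := by rw [← hq']; exact hw
        have h4 : (b : ℤ) + 1 = 2 * (w - 3 * q' - 4 * q' * z - 2 * z - 1) := by linear_combination h3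
        omega
      · have h3 : (b : ℤ) + (2 * q' + 1) * (3 * 0 + 4 * z) = 2 * w := by rw [← hq']; exact hw
        have h4 : (b : ℤ) = 2 * (w - 4 * q' * z - 2 * z) := by linear_combination h3
        omega
  by_cases h3q : 3 ∣ q
  · refine ⟨b + q * (3 * t2 + 4 * 0), ?_, ?_, fun h => absurd h3q h⟩
    · exact (Int.modEq_iff_dvd.2 ⟨-(3 * t2 + 4 * 0), by ring⟩)
    · have h1 : IsCoprime ((b : ℤ) + q * (3 * t2 + 4 * 0)) (q : ℤ) :=
        (IsCoprime.add_mul_left_left (Nat.isCoprime_iff_coprime.2 hb) _)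
      have h2 : IsCoprime ((b : ℤ) + q * (3 * t2 + 4 * 0)) 2 := by
        refine ((Int.prime_two.coprime_iff_not_dvd).2 (ht2 0)).symm
      have h3 : ((Nat.lcm 6 q : ℕ) : ℤ) ∣ 2 * q := by
        have : Nat.lcm 6 q ∣ 2 * q := by
          refine Nat.lcm_dvd ?_ (Dvd.intro_left _ rfl)
          obtain ⟨q', rfl⟩ := h3q
          exact ⟨q', by ring⟩
        exact_mod_cast this
      exact (h2.mul_right h1).of_isCoprime_of_dvd_right h3
  · refine ⟨b + q * (3 * t2 + 4 * ((σ - b) * q)), ?_, ?_, fun _ => ?_⟩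
    · exact (Int.modEq_iff_dvd.2 ⟨-(3 * t2 + 4 * ((σ - b) * q)), by ring⟩)
    all_goals
      have hq3 : (3 : ℤ) ∣ (q : ℤ) * q - 1 := by
        have h1 : (q : ℤ) % 3 = 1 ∨ (q : ℤ) % 3 = 2 := by omega
        obtain ⟨q', hq'⟩ : ∃ q' : ℤ, (q : ℤ) = 3 * q' + (q : ℤ) % 3 := ⟨(q : ℤ) / 3, by omega⟩
        rcases h1 with h1 | h1
        · rw [h1] at hq'
          rw [hq']
          exact ⟨3 * q' * q' + 2 * q', by ring⟩
        · rw [h1] at hq'
          rw [hq']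
          exact ⟨3 * q' * q' + 4 * q' + 1, by ring⟩
      have hmod3 : (3 : ℤ) ∣ (b + q * (3 * t2 + 4 * ((σ - b) * q))) - σ := by
        obtain ⟨w, hw⟩ := hq3
        refine ⟨q * t2 + (σ - b) * (q * q) + (σ - b) * w, ?_⟩
        linear_combination (σ - b) * hw
    · have h1 : IsCoprime ((b : ℤ) + q * (3 * t2 + 4 * ((σ - b) * q))) (q : ℤ) :=
        (IsCoprime.add_mul_left_left (Nat.isCoprime_iff_coprime.2 hb) _)
      have h2 : IsCoprime ((b : ℤ) + q * (3 * t2 + 4 * ((σ - b) * q))) 2 := by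
        refine ((Int.prime_two.coprime_iff_not_dvd).2 (ht2 _)).symm
      have h3 : IsCoprime ((b : ℤ) + q * (3 * t2 + 4 * ((σ - b) * q))) 3 := by
        refine ((Int.prime_three.coprime_iff_not_dvd).2 fun hd => ?_).symm
        have h4 : (3 : ℤ) ∣ σ := by
          have := dvd_sub hd hmod3
          simpa using this
        exact (Int.prime_three.coprime_iff_not_dvd).1 hσ.symm h4
      have h4 : ((Nat.lcm 6 q : ℕ) : ℤ) ∣ 2 * 3 * q := by
        have : Nat.lcm 6 q ∣ 2 * 3 * q := Nat.lcm_dvd_mul 6 q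
        exact_mod_cast this
      exact ((h2.mul_right h3).mul_right h1).of_isCoprime_of_dvd_right h4
    · exact (Int.modEq_iff_dvd.2 hmod3).symm

/-- the cluster theorem in the form needed for the density theorem -/
theorem cons_hD (G k : ℕ) (hk : 1 ≤ k) (hG : 1 ≤ G) (hD : DHLG G (G * k)) (q b : ℕ) (hq : 0 < q)
    (hb : Nat.Coprime b q) (Q : ℕ) (hqQ : q ∣ Q) (u : ℕ → ℤ) (hu : ∀ g, u g ≡ b [ZMOD q])
    (h : ℕ → ℕ → ℤ) (hcls : ∀ g < G, ∀ i < k, h g i ≡ u g [ZMOD Q])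
    (hinj : ∀ g < G, ∀ i < k, ∀ j < k, h g i = h g j → i = j)
    (hadm : ∀ p : ℕ, p.Prime → ∃ n : ℕ, ∀ g < G, ∀ i < k, ¬ (p : ℤ) ∣ n + h g i) :
    ∃ g g', g < g' ∧ g' < G ∧ ∃ i < k, ∃ i' < k, h g' i' - h g i = 0 ∨ CG q b (h g' i' - h g i).natAbs := by
  by_cases hdis : ∀ g < G, ∀ i < k, ∀ g' < G, ∀ i' < k, h g i = h g' i' → g = g' ∧ i = i'
  · obtain ⟨g, hg, g', hg', hne, i, hi, i', hi', hlt, hC⟩ := cons_cluster G k hk hG hD q b hq hb h hdis
      (fun g hg i hi => by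
        have hz : (q : ℤ) ∣ (Q : ℤ) := by exact_mod_cast hqQ
        exact ((hcls g hg i hi).of_dvd hz).trans (hu g)) hadm
    rcases lt_or_gt_of_ne hne with h1 | h1
    · refine ⟨g, g', h1, hg', i, hi, i', hi', Or.inr ?_⟩
      have h2 : (h g' i' - h g i).natAbs = (h g' i' - h g i).toNat := by omega
      rw [h2]; exact hC
    · refine ⟨g', g, h1, hg, i', hi', i, hi, Or.inr ?_⟩
      have h2 : (h g i - h g' i').natAbs = (h g' i' - h g i).toNat := by omega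
      rw [h2]; exact hC
  · push Not at hdis
    obtain ⟨g, hg, i, hi, g', hg', i', hi', he, hne⟩ := hdis
    have hgg : g ≠ g' := fun h1 => by
      subst h1
      exact hne rfl (hinj g hg i hi i' hi' he)
    rcases lt_or_gt_of_ne hgg with h1 | h1
    · exact ⟨g, g', h1, hg', i, hi, i', hi', Or.inl (by rw [he]; ring)⟩
    · exact ⟨g', g, h1, hg, i', hi', i, hi, Or.inl (by rw [he]; ring)⟩

theorem cg_density (k : ℕ) (hk : 1 ≤ k) (hD : DHLG 4 (4 * k)) (q b : ℕ) (hq : 0 < q) (hq2 : 2 ∣ q)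
    (hb : Nat.Coprime b q) (ε : ℝ) (hε : 0 < ε) :
    ∃ H : ℕ, ∀ (x : ℤ) (X : ℕ), H ≤ X →
      (1 - ε) * (X / (3 * q)) < (cnt (fun a => (q : ℤ) ∣ a ∧ CG q b a.natAbs) x X : ℝ) := by
  classical
  have hQpos : 0 < Nat.lcm 6 q := Nat.lcm_pos (by norm_num) hq
  have hqQ : q ∣ Nat.lcm 6 q := Nat.dvd_lcm_right _ _
  have hqQz : (q : ℤ) ∣ ((Nat.lcm 6 q : ℕ) : ℤ) := by exact_mod_cast hqQ
  have hQG : ∀ p : ℕ, p.Prime → p ≤ 4 → p ∣ Nat.lcm 6 q := fun p hp hp4 => by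
    have h8 : ∀ r : ℕ, r ≤ 4 → Nat.Prime r → r ∣ 6 := by decide
    exact (h8 p hp4 hp).trans (Nat.dvd_lcm_left _ _)
  have h6 : (6 : ℕ) = Nat.lcm 3 2 := by decide
  have h6q : Nat.lcm 6 q = Nat.lcm 3 q := by rw [h6, Nat.lcm_assoc, Nat.lcm_eq_right hq2]
  obtain ⟨u1, hu1, hu1c, hu13⟩ := exists_u q b hb 1 isCoprime_one_left
  by_cases h3q : 3 ∣ q
  · -- all groups in one class
    have hlcm : Nat.lcm 6 q = q := by rw [h6q, Nat.lcm_eq_right h3q]
    obtain ⟨H, hH⟩ := density_P (fun a => CG q b a.natAbs) 4 k (by norm_num) hk (Nat.lcm 6 q) hQpos (fun _ => u1)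
      hQG (fun _ _ => hu1c)
      (fun h h1 h2 h3 => cons_hD 4 k hk (by norm_num) hD q b hq hb (Nat.lcm 6 q) hqQ (fun _ => u1) (fun _ => hu1)
        h h1 h2 h3) ε hε
    refine ⟨H, fun x X hX => ?_⟩
    obtain ⟨j, hj1, hj4, hj⟩ := hH x X hX
    rw [hlcm] at hj
    have h1 : (∑ i ∈ range j, (cnt (fun a => a ≡ u1 - u1 [ZMOD (q : ℤ)] ∧ CG q b a.natAbs) x X : ℝ)) ≤
        3 * cnt (fun a => (q : ℤ) ∣ a ∧ CG q b a.natAbs) x X := by
      rw [Finset.sum_const, Finset.card_range, nsmul_eq_mul]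
      have h2 : (cnt (fun a => a ≡ u1 - u1 [ZMOD (q : ℤ)] ∧ CG q b a.natAbs) x X : ℝ) ≤
          cnt (fun a => (q : ℤ) ∣ a ∧ CG q b a.natAbs) x X := by
        have h6 : cnt (fun a => a ≡ u1 - u1 [ZMOD (q : ℤ)] ∧ CG q b a.natAbs) x X ≤
            cnt (fun a => (q : ℤ) ∣ a ∧ CG q b a.natAbs) x X :=
          cnt_mono (fun a ha => ⟨by
            have h7 := ha.1
            rw [sub_self] at h7
            exact (Int.modEq_zero_iff_dvd).1 h7, ha.2⟩) x X
        exact_mod_cast h6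
      have h3 : (j : ℝ) ≤ 3 := by exact_mod_cast (by omega : j ≤ 3)
      have h4 : (0 : ℝ) ≤ (cnt (fun a => (q : ℤ) ∣ a ∧ CG q b a.natAbs) x X : ℝ) := Nat.cast_nonneg _
      have h5 : (0 : ℝ) ≤ (j : ℝ) := Nat.cast_nonneg _
      nlinarith
    have h2 := hj.trans_le h1
    have h3 : (1 - ε) * ((X : ℝ) / (3 * q)) = (1 - ε) * ((X : ℝ) / q) / 3 := by
      have : (q : ℝ) ≠ 0 := by exact_mod_cast hq.ne'
      field_simp
    rw [h3, div_lt_iff₀ (by norm_num)]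
    linarith
  · -- two classes modulo three
    obtain ⟨u2, hu2, hu2c, hu23⟩ := exists_u q b hb (-1) (isCoprime_one_left.neg_left)
    have hlcm : Nat.lcm 6 q = 3 * q := by
      rw [h6q]
      exact Nat.Coprime.lcm_eq_mul ((Nat.Prime.coprime_iff_not_dvd Nat.prime_three).2 h3q)
    have key : ∀ v w : ℤ, v ≡ b [ZMOD q] → w ≡ b [ZMOD q] → IsCoprime v ((Nat.lcm 6 q : ℕ) : ℤ) →
        IsCoprime w ((Nat.lcm 6 q : ℕ) : ℤ) → ∃ H : ℕ, ∀ (x : ℤ) (X : ℕ), H ≤ X →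
          (1 - ε) * (X / (Nat.lcm 6 q : ℕ)) <
            (cnt (fun a => a ≡ 0 [ZMOD ((Nat.lcm 6 q : ℕ) : ℤ)] ∧ CG q b a.natAbs) x X : ℝ) +
            2 * cnt (fun a => a ≡ w - v [ZMOD ((Nat.lcm 6 q : ℕ) : ℤ)] ∧ CG q b a.natAbs) x X := by
      intro v w hv hw hvc hwc
      obtain ⟨H, hH⟩ := density_P (fun a => CG q b a.natAbs) 4 k (by norm_num) hk (Nat.lcm 6 q) hQpos
        (fun i => if i < 2 then v else w) hQG
        (fun i _ => by
          show IsCoprime (if i < 2 then v else w) ((Nat.lcm 6 q : ℕ) : ℤ)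
          split_ifs
          · exact hvc
          · exact hwc)
        (fun h h1 h2 h3 => cons_hD 4 k hk (by norm_num) hD q b hq hb (Nat.lcm 6 q) hqQ
          (fun i => if i < 2 then v else w) (fun g => by
            show (if g < 2 then v else w) ≡ b [ZMOD q]
            split_ifs
            · exact hv
            · exact hw) h h1 h2 h3) ε hε
      refine ⟨H, fun x X hX => ?_⟩
      obtain ⟨j, hj1, hj4, hj⟩ := hH x X hX
      have h0 : (0 : ℝ) ≤ (cnt (fun a => a ≡ 0 [ZMOD ((Nat.lcm 6 q : ℕ) : ℤ)] ∧ CG q b a.natAbs) x X : ℝ) :=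
        Nat.cast_nonneg _
      have h2 : (0 : ℝ) ≤ (cnt (fun a => a ≡ w - v [ZMOD ((Nat.lcm 6 q : ℕ) : ℤ)] ∧ CG q b a.natAbs) x X : ℝ) :=
        Nat.cast_nonneg _
      interval_cases j <;>
      simp only [Finset.sum_range_succ, Finset.sum_range_zero, zero_add, Nat.one_lt_ofNat, if_true, lt_irrefl,
        if_false, show ¬ (3 : ℕ) < 2 by norm_num, show (0 : ℕ) < 2 by norm_num, sub_self] at hj <;> linarith
    obtain ⟨H1, hH1⟩ := key u2 u1 hu2 hu1 hu2c hu1c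
    obtain ⟨H2, hH2⟩ := key u1 u2 hu1 hu2 hu1c hu2c
    refine ⟨max H1 H2, fun x X hX => ?_⟩
    have h1 := hH1 x X ((le_max_left _ _).trans hX)
    have h2 := hH2 x X ((le_max_right _ _).trans hX)
    have h3z : (3 : ℤ) ∣ ((Nat.lcm 6 q : ℕ) : ℤ) := by
      have : 3 ∣ Nat.lcm 6 q := (by norm_num : 3 ∣ 6).trans (Nat.dvd_lcm_left _ _)
      exact_mod_cast this
    have hu1' := hu13 h3q
    have hu2' := hu23 h3q
    have hdvd : ∀ v w a : ℤ, v ≡ b [ZMOD q] → w ≡ b [ZMOD q] → a ≡ w - v [ZMOD ((Nat.lcm 6 q : ℕ) : ℤ)] →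
        (q : ℤ) ∣ a := by
      intro v w a hv hw ha
      have h4 := (ha.of_dvd hqQz).trans (hw.sub hv)
      rw [sub_self] at h4
      exact (Int.modEq_zero_iff_dvd).1 h4
    have h3 : cnt (fun a => a ≡ 0 [ZMOD ((Nat.lcm 6 q : ℕ) : ℤ)] ∧ CG q b a.natAbs) x X +
        cnt (fun a => a ≡ u1 - u2 [ZMOD ((Nat.lcm 6 q : ℕ) : ℤ)] ∧ CG q b a.natAbs) x X +
        cnt (fun a => a ≡ u2 - u1 [ZMOD ((Nat.lcm 6 q : ℕ) : ℤ)] ∧ CG q b a.natAbs) x X ≤
        cnt (fun a => (q : ℤ) ∣ a ∧ CG q b a.natAbs) x X := by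
      rw [cnt_eq, cnt_eq, cnt_eq, cnt_eq]
      rw [← Finset.card_union_of_disjoint, ← Finset.card_union_of_disjoint]
      · refine Finset.card_le_card fun a ha => ?_
        rw [Finset.mem_union, Finset.mem_union, Finset.mem_filter, Finset.mem_filter, Finset.mem_filter] at ha
        rw [Finset.mem_filter]
        rcases ha with (ha | ha) | ha
        · exact ⟨ha.1, (Int.modEq_zero_iff_dvd).1 (ha.2.1.of_dvd hqQz), ha.2.2⟩
        · exact ⟨ha.1, hdvd u2 u1 a hu2 hu1 ha.2.1, ha.2.2⟩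
        · exact ⟨ha.1, hdvd u1 u2 a hu1 hu2 ha.2.1, ha.2.2⟩
      · rw [Finset.disjoint_left]
        intro a ha hb
        rw [Finset.mem_union, Finset.mem_filter, Finset.mem_filter] at ha
        rw [Finset.mem_filter] at hb
        have h5 := (hb.2.1).of_dvd h3z
        unfold Int.ModEq at h5 hu1' hu2'
        rcases ha with ha | ha
        · have h6 := (ha.2.1).of_dvd h3z
          unfold Int.ModEq at h6
          omega
        · have h6 := (ha.2.1).of_dvd h3z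
          unfold Int.ModEq at h6
          omega
      · rw [Finset.disjoint_left]
        intro a ha hb
        rw [Finset.mem_filter] at ha hb
        have h5 := (hb.2.1).of_dvd h3z
        have h6 := (ha.2.1).of_dvd h3z
        unfold Int.ModEq at h5 h6 hu1' hu2'
        omega
    have h4 : (cnt (fun a => a ≡ 0 [ZMOD ((Nat.lcm 6 q : ℕ) : ℤ)] ∧ CG q b a.natAbs) x X : ℝ) +
        cnt (fun a => a ≡ u1 - u2 [ZMOD ((Nat.lcm 6 q : ℕ) : ℤ)] ∧ CG q b a.natAbs) x X +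
        cnt (fun a => a ≡ u2 - u1 [ZMOD ((Nat.lcm 6 q : ℕ) : ℤ)] ∧ CG q b a.natAbs) x X ≤
        cnt (fun a => (q : ℤ) ∣ a ∧ CG q b a.natAbs) x X := by exact_mod_cast h3
    have h5 : ((Nat.lcm 6 q : ℕ) : ℝ) = 3 * q := by rw [hlcm]; push_cast; ring
    rw [h5] at h1 h2
    linarith

/-- consecutive primes as values of `Nat.nth Nat.Prime` -/
theorem cg_nth (q b a : ℕ) (ha : 0 < a) (h : CG q b a) :
    {n : ℕ | Nat.nth Nat.Prime n ≡ b [MOD q] ∧ Nat.nth Nat.Prime (n + 1) = Nat.nth Nat.Prime n + a}.Infinite := by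
  refine Set.Infinite.of_image (Nat.nth Nat.Prime) (h.mono fun p hp => ?_)
  obtain ⟨h1, h2, h3, h4⟩ := hp
  refine ⟨Nat.count Nat.Prime p, ⟨?_, ?_⟩, Nat.nth_count h1⟩
  · rw [Nat.nth_count h1]; exact h2
  · rw [Nat.nth_count h1]
    have hmono := Nat.nth_strictMono Nat.infinite_setOf_prime
    have h5 : p < Nat.nth Nat.Prime (Nat.count Nat.Prime p + 1) := by
      have := hmono (Nat.lt_succ_self (Nat.count Nat.Prime p))
      rwa [Nat.nth_count h1] at this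
    have h6 : (Nat.nth Nat.Prime (Nat.count Nat.Prime p + 1)).Prime := Nat.prime_nth_prime _
    rcases lt_trichotomy (Nat.nth Nat.Prime (Nat.count Nat.Prime p + 1)) (p + a) with h7 | h7 | h7
    · exact absurd h6 (h4 _ h5 h7)
    · exact h7
    · exfalso
      have h8 : Nat.nth Nat.Prime (Nat.count Nat.Prime (p + a)) = p + a := Nat.nth_count h3
      have h9 : Nat.count Nat.Prime p < Nat.count Nat.Prime (p + a) := by
        rw [← hmono.lt_iff_lt, Nat.nth_count h1, h8]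
        omega
      have h10 : Nat.count Nat.Prime (p + a) < Nat.count Nat.Prime p + 1 := by
        rw [← hmono.lt_iff_lt, h8]
        exact h7
      omega

/-- **A third of the multiples of `q` (`q` even) are gaps between consecutive primes in a class modulo `q`.** -/
theorem gap_third (k : ℕ) (hk : 1 ≤ k) (hD : DHLG 4 (4 * k)) (q b : ℕ) (hq : 0 < q) (hq2 : 2 ∣ q)
    (hb : Nat.Coprime b q) (ε : ℝ) (hε : 0 < ε) :
    ∃ H : ℕ, ∀ x X : ℕ, H ≤ X → (1 / 3 - ε) * X <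
      ({t : ℕ | x < t ∧ t ≤ x + X ∧ {n : ℕ | Nat.nth Nat.Prime n ≡ b [MOD q] ∧
        Nat.nth Nat.Prime (n + 1) = Nat.nth Nat.Prime n + q * t}.Infinite}.ncard : ℝ) := by
  classical
  obtain ⟨H, hH⟩ := cg_density k hk hD q b hq hq2 hb ε hε
  refine ⟨H, fun x X hX => ?_⟩
  have h1 := hH (q * x : ℕ) (q * X) (hX.trans (Nat.le_mul_of_pos_left _ hq))
  have h2 : cnt (fun a => (q : ℤ) ∣ a ∧ CG q b a.natAbs) (q * x : ℕ) (q * X) ≤
      {t : ℕ | x < t ∧ t ≤ x + X ∧ {n : ℕ | Nat.nth Nat.Prime n ≡ b [MOD q] ∧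
        Nat.nth Nat.Prime (n + 1) = Nat.nth Nat.Prime n + q * t}.Infinite}.ncard := by
    have hfin : {t : ℕ | x < t ∧ t ≤ x + X ∧ {n : ℕ | Nat.nth Nat.Prime n ≡ b [MOD q] ∧
        Nat.nth Nat.Prime (n + 1) = Nat.nth Nat.Prime n + q * t}.Infinite}.Finite :=
      (Set.finite_Iic (x + X)).subset fun h hh => hh.2.1
    have hinj : Function.Injective fun t : ℕ => ((q * t : ℕ) : ℤ) := by
      intro t t' h
      have h6 : ((q * t : ℕ) : ℤ) = ((q * t' : ℕ) : ℤ) := h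
      have h5 : q * t = q * t' := by exact_mod_cast h6
      exact Nat.eq_of_mul_eq_mul_left hq h5
    rw [← Set.ncard_image_of_injective _ hinj, cnt_eq, ← Set.ncard_coe_finset]
    refine Set.ncard_le_ncard ?_ (hfin.image _)
    intro a ha
    rw [Finset.coe_filter, Set.mem_setOf_eq, Finset.mem_Ioc] at ha
    obtain ⟨⟨ha1, ha2⟩, ⟨m, hm⟩, ha3⟩ := ha
    subst hm
    have hqz : (0 : ℤ) < q := by exact_mod_cast hq
    have hm1 : (x : ℤ) < m := by
      have h5 : (q : ℤ) * x < q * m := by push_cast at ha1; exact ha1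
      exact lt_of_mul_lt_mul_left h5 hqz.le
    have hm2 : m ≤ (x : ℤ) + X := by
      have h5 : (q : ℤ) * m ≤ q * (x + X) := by push_cast at ha2; linarith
      exact le_of_mul_le_mul_left h5 hqz
    have hm0 : 0 < m := lt_of_le_of_lt (Int.natCast_nonneg x) hm1
    obtain ⟨t, rfl⟩ := Int.eq_ofNat_of_zero_le hm0.le
    refine ⟨t, ⟨by exact_mod_cast hm1, by exact_mod_cast hm2, ?_⟩, by push_cast; ring⟩
    refine cg_nth q b (q * t) (Nat.mul_pos hq (by exact_mod_cast hm0)) ?_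
    have h5 : ((q : ℤ) * (t : ℤ)).natAbs = q * t := by
      rw [← Nat.cast_mul, Int.natAbs_natCast]
    rw [h5] at ha3
    exact ha3
  have h3 : (cnt (fun a => (q : ℤ) ∣ a ∧ CG q b a.natAbs) (q * x : ℕ) (q * X) : ℝ) ≤
      ({t : ℕ | x < t ∧ t ≤ x + X ∧ {n : ℕ | Nat.nth Nat.Prime n ≡ b [MOD q] ∧
        Nat.nth Nat.Prime (n + 1) = Nat.nth Nat.Prime n + q * t}.Infinite}.ncard : ℝ) := by exact_mod_cast h2
  refine lt_of_le_of_lt ?_ (h1.trans_le h3)
  have h4 : (0 : ℝ) < q := by exact_mod_cast hq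
  have h5 : (1 - ε) * (((q * X : ℕ) : ℝ) / (3 * q)) = (1 / 3 - ε / 3) * X := by
    push_cast
    field_simp
  rw [h5]
  refine mul_le_mul_of_nonneg_right (by linarith) (by positivity)

end Pool.Agent.PolD
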