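import Pool.Agent.PolD.Greedy2

/-! Every pair `(a, d)`: a third of the modifications `(a + d E, d t)` for one of three multipliers `t`.
The step: adding one group of forms to a chain of groups of forms with all pairs from different groups bad. -/

set_option autoImplicit false

namespace Pool.Agent.PolD

open Finset Pool.Agent.SL

open Classical in
/-- the step in abstract form: averaging and pigeonhole -/
theorem abs_step (r : ℕ) (T : ℕ → Finset ℤ) (B : ℕ → ℤ → ℤ → Prop) (A : Finset ℤ) (Q' : ℕ) (hQ' : 0 < Q')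
    (hT : ∀ i < r, (T i).Nonempty) (ε : ℝ) (hε : 0 < ε) (hε1 : ε ≤ 1) (C : ℝ) (n : ℕ) (hn : 0 < n)
    (havg : ∑ i ∈ range r, (∑ t ∈ T i, ((A.filter fun y => B i t y).card : ℝ)) / (T i).card ≤
      (1 - ε) * A.card + C)
    (hbig : (((range Q') ×ˢ ((range r).sigma T).powerset).card : ℝ) * n + C ≤ ε / 2 * A.card) :
    ∃ Y : Finset ℤ, Y ⊆ A ∧ Y.card = n ∧ (∀ y ∈ Y, ∀ y' ∈ Y, (Q' : ℤ) ∣ y - y') ∧
      ∃ T' : ℕ → Finset ℤ, ∀ i < r, T' i ⊆ T i ∧ ε / 2 * (T i).card ≤ ((T' i).card : ℝ) ∧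
        ∀ t ∈ T' i, ∀ y ∈ Y, ¬ B i t y := by
  let P : Finset (Σ _ : ℕ, ℤ) := (range r).sigma T
  obtain ⟨K, hK⟩ : ∃ K : ℕ, K = ((range Q') ×ˢ P.powerset).card := ⟨_, rfl⟩
  let W : ℤ → ℝ := fun y => ∑ i ∈ range r, (((T i).filter fun t => B i t y).card : ℝ) / (T i).card
  have hcardT : ∀ i < r, (0 : ℝ) < (T i).card := fun i hi => by exact_mod_cast (hT i hi).card_pos
  have hsumW : ∑ y ∈ A, W y ≤ (1 - ε) * A.card + C := by
    refine le_trans (le_of_eq ?_) havg
    show ∑ y ∈ A, ∑ i ∈ range r, (((T i).filter fun t => B i t y).card : ℝ) / (T i).card = _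
    rw [Finset.sum_comm]
    refine Finset.sum_congr rfl fun i _ => ?_
    rw [← Finset.sum_div]
    congr 1
    have h2 : ∀ y ∈ A, (((T i).filter fun t => B i t y).card : ℝ) = ∑ t ∈ T i, if B i t y then 1 else 0 := by
      intro y _
      rw [Finset.card_filter]
      push_cast
      rfl
    rw [Finset.sum_congr rfl h2, Finset.sum_comm]
    refine Finset.sum_congr rfl fun t _ => ?_
    rw [Finset.card_filter]
    push_cast
    rfl
  -- many good `y`
  set J : Finset ℤ := A.filter fun y => W y ≤ 1 - ε / 2 with hJ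
  have hW0 : ∀ y, 0 ≤ W y := fun y => Finset.sum_nonneg fun i _ => by positivity
  have hJcard : (K * n : ℝ) ≤ J.card := by
    have h1 : (1 - ε / 2) * (A.card - J.card : ℝ) ≤ ∑ y ∈ A, W y := by
      have h2 : (A.card - J.card : ℝ) = ((A.filter fun y => ¬ W y ≤ 1 - ε / 2).card : ℝ) := by
        have h3 := Finset.card_filter_add_card_filter_not (s := A) (fun y => W y ≤ 1 - ε / 2)
        rw [← hJ] at h3
        have h4 : (J.card : ℝ) + ((A.filter fun y => ¬ W y ≤ 1 - ε / 2).card : ℝ) = A.card := by exact_mod_cast h3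
        linarith
      rw [h2]
      calc (1 - ε / 2) * ((A.filter fun y => ¬ W y ≤ 1 - ε / 2).card : ℝ)
          = ∑ y ∈ A.filter (fun y => ¬ W y ≤ 1 - ε / 2), (1 - ε / 2) := by
            rw [Finset.sum_const, nsmul_eq_mul, mul_comm]
        _ ≤ ∑ y ∈ A.filter (fun y => ¬ W y ≤ 1 - ε / 2), W y :=
            Finset.sum_le_sum fun y hy => (not_le.1 (Finset.mem_filter.1 hy).2).le
        _ ≤ ∑ y ∈ A, W y := Finset.sum_le_sum_of_subset_of_nonneg (Finset.filter_subset _ _) fun y _ _ => hW0 y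
    have h6 : (0 : ℝ) ≤ J.card := Nat.cast_nonneg _
    have h7 : (K : ℝ) * n + C ≤ ε / 2 * A.card := by rw [hK]; exact hbig
    nlinarith
  have hpig : ((range Q') ×ˢ P.powerset).card * n ≤ J.card := by
    rw [← hK]
    exact_mod_cast hJcard
  let pat : ℤ → ℕ × Finset (Σ _ : ℕ, ℤ) := fun y => ((y % Q').toNat, P.filter fun p => ¬ B p.1 p.2 y)
  have hmaps : ∀ y ∈ J, pat y ∈ (range Q') ×ˢ P.powerset := by
    intro y hy
    show ((y % Q').toNat, P.filter fun p => ¬ B p.1 p.2 y) ∈ _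
    rw [Finset.mem_product, Finset.mem_range, Finset.mem_powerset]
    refine ⟨?_, Finset.filter_subset _ _⟩
    have hQ'z : (0 : ℤ) < Q' := by exact_mod_cast hQ'
    have h3 := Int.emod_nonneg y hQ'z.ne'
    have h4 := Int.emod_lt_of_pos y hQ'z
    show (y % Q').toNat < Q'
    omega
  have hne : ((range Q') ×ˢ P.powerset).Nonempty :=
    ⟨(0, ∅), Finset.mem_product.2 ⟨Finset.mem_range.2 hQ', Finset.empty_mem_powerset _⟩⟩
  obtain ⟨⟨ρ, S⟩, hρS, hfib⟩ := Finset.exists_le_card_fiber_of_mul_le_card_of_maps_to hmaps hne hpig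
  obtain ⟨Y, hYsub, hYcard⟩ := Finset.exists_subset_card_eq hfib
  have hY : ∀ y ∈ Y, y ∈ A ∧ W y ≤ 1 - ε / 2 ∧ (y % Q').toNat = ρ ∧
      (P.filter fun p => ¬ B p.1 p.2 y) = S := by
    intro y hy
    have h1 := hYsub hy
    rw [Finset.mem_filter, hJ, Finset.mem_filter] at h1
    have h2 : pat y = (ρ, S) := h1.2
    exact ⟨h1.1.1, h1.1.2, congrArg Prod.fst h2, congrArg Prod.snd h2⟩
  refine ⟨Y, fun y hy => (hY y hy).1, hYcard, ?_, fun i => (T i).filter fun t => (⟨i, t⟩ : Σ _ : ℕ, ℤ) ∈ S, ?_⟩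
  · intro y hy y' hy'
    have h1 := (hY y hy).2.2.1
    have h2 := (hY y' hy').2.2.1
    have hQ'z : (0 : ℤ) < Q' := by exact_mod_cast hQ'
    have h3 := Int.emod_nonneg y hQ'z.ne'
    have h4 := Int.emod_nonneg y' hQ'z.ne'
    have h5 : y % Q' = y' % Q' := by omega
    exact Int.ModEq.dvd (show y' ≡ y [ZMOD Q'] from h5.symm)
  · intro i hi
    refine ⟨Finset.filter_subset _ _, ?_, ?_⟩
    · obtain ⟨y, hy⟩ : Y.Nonempty := by rw [← Finset.card_pos, hYcard]; exact hn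
      have h1 := hY y hy
      have h2 : ((T i).filter fun t => (⟨i, t⟩ : Σ _ : ℕ, ℤ) ∈ S) = (T i).filter fun t => ¬ B i t y := by
        refine Finset.filter_congr fun t ht => ?_
        rw [← h1.2.2.2, Finset.mem_filter]
        constructor
        · intro h; exact h.2
        · intro h; exact ⟨Finset.mem_sigma.2 ⟨Finset.mem_range.2 hi, ht⟩, h⟩
      show ε / 2 * ((T i).card : ℝ) ≤ (((T i).filter fun t => (⟨i, t⟩ : Σ _ : ℕ, ℤ) ∈ S).card : ℝ)
      rw [h2]
      have h3 := Finset.card_filter_add_card_filter_not (s := T i) (fun t => B i t y)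
      have h4 : (((T i).filter fun t => B i t y).card : ℝ) / (T i).card ≤ 1 - ε / 2 := by
        refine le_trans ?_ h1.2.1
        exact Finset.single_le_sum (f := fun i => (((T i).filter fun t => B i t y).card : ℝ) / (T i).card)
          (fun i _ => by positivity) (Finset.mem_range.2 hi)
      rw [div_le_iff₀ (hcardT i hi)] at h4
      have h5 : (((T i).filter fun t => B i t y).card : ℝ) + (((T i).filter fun t => ¬ B i t y).card : ℝ) =
        (T i).card := by exact_mod_cast h3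
      linarith
    · intro t ht y hy
      have h1 := hY y hy
      rw [Finset.mem_filter, ← h1.2.2.2, Finset.mem_filter] at ht
      exact ht.2.2

/-- a chain of `r` groups of `n` forms, slopes in `S`, all pairs from different groups bad -/
structure FCh (S : Set ℕ) (Q : ℕ) (r n : ℕ) (s : ℕ → ℕ) (T : ℕ → Finset ℤ) : Prop where
  size : ∀ i < r, (T i).card = n
  mem : ∀ i < r, s i ∈ S
  dvd : ∀ i j, i < j → j < r → ∃ D ∈ S, s j = D * s i
  mod : ∀ i < r, ∀ t ∈ T i, ∀ t' ∈ T i, (Q : ℤ) ∣ t - t'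
  adm : ∀ p : ℕ, p.Prime → ∃ m : ℕ, ∀ i < r, ∀ t ∈ T i, ¬ (p : ℤ) ∣ s i * m + t
  bad : ∀ i j, i < j → j < r → ∀ t ∈ T i, ∀ t' ∈ T j,
    t' - (s j / s i : ℕ) * t ≠ 0 ∧ ¬ GZ (t' - (s j / s i : ℕ) * t) (s j / s i)

/-- an element of an arithmetic progression coprime to `P` -/
theorem exists_cop (P : ℕ) (hP : 0 < P) (a d : ℤ) (had : IsCoprime a d) :
    ∃ x : ℕ, ∀ p : ℕ, p.Prime → p ∣ P → ¬ (p : ℤ) ∣ a + d * x := by
  classical
  refine ⟨∏ p ∈ P.primeFactors.filter (fun p : ℕ => ¬ (p : ℤ) ∣ a), p, fun p hp hpP hdiv => ?_⟩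
  by_cases hpa : (p : ℤ) ∣ a
  · have h1 : (p : ℤ) ∣ d * ((∏ p ∈ P.primeFactors.filter (fun p : ℕ => ¬ (p : ℤ) ∣ a), p : ℕ) : ℤ) :=
      (Int.dvd_add_right hpa).mp hdiv
    have hpp : Prime (p : ℤ) := Nat.prime_iff_prime_int.mp hp
    rcases hpp.dvd_or_dvd h1 with h2 | h2
    · exact hpp.not_isUnit (had.isUnit_of_dvd' hpa h2)
    · have h3 : p ∣ ∏ p ∈ P.primeFactors.filter (fun p : ℕ => ¬ (p : ℤ) ∣ a), p := by exact_mod_cast h2
      obtain ⟨q, hq, hpq⟩ := (Prime.dvd_finsetProd_iff hp.prime _).mp h3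
      rw [mem_filter] at hq
      have h4 : p = q := (Nat.prime_dvd_prime_iff_eq hp (Nat.prime_of_mem_primeFactors hq.1)).mp hpq
      exact hq.2 (h4 ▸ hpa)
  · have h1 : p ∣ ∏ p ∈ P.primeFactors.filter (fun p : ℕ => ¬ (p : ℤ) ∣ a), p :=
      dvd_prod_of_mem _ (mem_filter.mpr ⟨Nat.mem_primeFactors.mpr ⟨hp, hpP, by omega⟩, hpa⟩)
    have h2 : (p : ℤ) ∣ d * ((∏ p ∈ P.primeFactors.filter (fun p : ℕ => ¬ (p : ℤ) ∣ a), p : ℕ) : ℤ) :=
      Dvd.dvd.mul_left (by exact_mod_cast h1) d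
    exact hpa ((Int.dvd_add_left h2).mp hdiv)

/-- the admissible `E`: `a + d E` is coprime to `P` and even if `d P` is odd -/
def AdmE (a d : ℤ) (P : ℕ) (E : ℤ) : Prop := Int.gcd (a + d * E) P = 1 ∧ 2 ∣ (a + d * E) * (d * P)

theorem AdmE.period {a d : ℤ} {P : ℕ} {E E' : ℤ} (h : AdmE a d P E) (hE : ((2 * P : ℕ) : ℤ) ∣ E' - E) :
    AdmE a d P E' := by
  obtain ⟨c, hc⟩ := hE
  have e1 : a + d * E' = a + d * E + (d * 2 * c) * P := by
    have : E' = E + ((2 * P : ℕ) : ℤ) * c := by linarith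
    rw [this]; push_cast; ring
  constructor
  · rw [e1, Int.gcd_add_mul_right_left]
    exact h.1
  · rw [e1]
    have : (a + d * E + (d * 2 * c) * P) * (d * P) = (a + d * E) * (d * P) + 2 * (d * c * P * (d * P)) := by ring
    rw [this]
    exact dvd_add h.2 (dvd_mul_right _ _)

theorem exists_admE (a d : ℤ) (P : ℕ) (hP : 0 < P) (had : IsCoprime a d) : ∃ E : ℤ, AdmE a d P E := by
  obtain ⟨x, hx⟩ := exists_cop P hP a d had
  have hcop : ∀ E : ℤ, (P : ℤ) ∣ E - x → Int.gcd (a + d * E) P = 1 := by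
    intro E hE
    by_contra hne
    obtain ⟨p, hp, hpd⟩ := Nat.exists_prime_and_dvd hne
    have h1 : (p : ℤ) ∣ a + d * E := (by exact_mod_cast hpd : (p : ℤ) ∣ ((Int.gcd (a + d * E) P : ℕ) : ℤ)).trans
      (Int.gcd_dvd_left _ _)
    have h2 : (p : ℤ) ∣ (P : ℤ) := (by exact_mod_cast hpd : (p : ℤ) ∣ ((Int.gcd (a + d * E) P : ℕ) : ℤ)).trans
      (Int.gcd_dvd_right _ _)
    apply hx p hp (by exact_mod_cast h2)
    have h3 : a + d * (x : ℤ) = (a + d * E) - d * (E - x) := by ring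
    rw [h3]
    exact dvd_sub h1 ((h2.trans hE).mul_left d)
  rcases Int.even_or_odd (a + d * x) with h | h
  · exact ⟨x, hcop x (by simp), (even_iff_two_dvd.1 h).mul_right _⟩
  · rcases Int.even_or_odd (d * (P : ℤ)) with h' | h'
    · exact ⟨x, hcop x (by simp), (even_iff_two_dvd.1 h').mul_left _⟩
    · refine ⟨x + P, hcop _ (by simp), ?_⟩
      have h2 : Even (a + d * (x + P : ℤ)) := by
        have : a + d * (x + P : ℤ) = (a + d * x) + d * P := by ring
        rw [this]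
        exact h.add_odd h'
      exact (even_iff_two_dvd.1 h2).mul_right _

end Pool.Agent.PolD
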