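import Pool.Agent.PolD.Every3

/-! Every pair `(a, d)`: a third of the modifications `(a + d E, d t)` for one of three multipliers `t`.
The extension of a chain of groups. -/

set_option autoImplicit false

namespace Pool.Agent.PolD

open Finset Pool.Agent.SL

theorem cnt_admE (a d : ℤ) (P : ℕ) (hP : 0 < P) (had : IsCoprime a d) (x : ℤ) (X : ℕ) :
    (X : ℝ) / (2 * P) - 1 ≤ cnt (AdmE a d P) x X := by
  obtain ⟨E0, h0⟩ := exists_admE a d P hP had
  have h1 := cnt_class (2 * P) (by omega) E0 x X
  have h2 : cnt (fun E => E ≡ E0 [ZMOD ((2 * P : ℕ) : ℤ)]) x X ≤ cnt (AdmE a d P) x X :=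
    cnt_mono (fun E hE => h0.period hE.symm.dvd) x X
  have h3 : (cnt (fun E => E ≡ E0 [ZMOD ((2 * P : ℕ) : ℤ)]) x X : ℝ) ≤ cnt (AdmE a d P) x X := by
    exact_mod_cast h2
  refine le_trans (le_of_eq ?_) (h1.trans h3)
  push_cast
  rfl

/-- the extension of a chain of groups: if few of the modifications are good, the chain can be prolonged -/
theorem extend (S : Set ℕ) (h1S : 1 ∈ S) (hmul : ∀ a ∈ S, ∀ b ∈ S, a * b ∈ S) (hpos : ∀ a ∈ S, 0 < a)
    (μ : ℕ) (hμ : μ ∈ S) (h3μ : 3 ∣ μ) (Q : ℕ) (hQ : 0 < Q) (ε : ℝ) (hε : 0 < ε) (hε1 : ε ≤ 1)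
    (r N n : ℕ) (hr : 1 ≤ r) (hr3 : r ≤ 3) (hn : 0 < n) (hN : (n : ℝ) ≤ ε / 2 * N)
    (hQn : ∀ p : ℕ, p.Prime → p ≤ (r + 1) * n → p ∣ Q) (s : ℕ → ℕ) (T : ℕ → Finset ℤ)
    (hF : FCh S Q r N s T) :
    ∃ B : ℕ, ∀ d ∈ S, ∀ a : ℤ, IsCoprime a (d : ℤ) → ∀ (x : ℤ) (X : ℕ), B ≤ X →
      ∑ i ∈ range r, (cnt (fun E => GZ (a + d * E) (d * (μ * s (r - 1) * (s (r - 1) / s i)))) x X : ℝ) ≤
        (1 - ε) * cnt (AdmE a d (μ * s (r - 1))) x X →
      ∃ (s' : ℕ → ℕ) (T' : ℕ → Finset ℤ), FCh S Q (r + 1) n s' T' := by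
  classical
  obtain ⟨sl, hsl⟩ : ∃ sl, sl = s (r - 1) := ⟨_, rfl⟩
  rw [← hsl]
  have hslS : sl ∈ S := by rw [hsl]; exact hF.mem _ (by omega)
  have hsl0 : 0 < sl := hpos _ hslS
  obtain ⟨lam, hlam⟩ : ∃ lam, lam = μ * sl := ⟨_, rfl⟩
  rw [← hlam]
  have hlamS : lam ∈ S := by rw [hlam]; exact hmul _ hμ _ hslS
  have hlam0 : 0 < lam := hpos _ hlamS
  have hspos : ∀ i < r, 0 < s i := fun i hi => hpos _ (hF.mem i hi)
  have hD : ∀ i < r, sl / s i ∈ S ∧ sl = sl / s i * s i := by
    intro i hi
    have h : ∃ D ∈ S, sl = D * s i := by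
      rcases Nat.lt_or_ge i (r - 1) with h | h
      · obtain ⟨D, hD, h2⟩ := hF.dvd i (r - 1) h (by omega)
        exact ⟨D, hD, by rw [hsl]; exact h2⟩
      · have : i = r - 1 := by omega
        exact ⟨1, h1S, by rw [hsl, this, one_mul]⟩
    obtain ⟨D, hDS, hDe⟩ := h
    have h2 : sl / s i = D := by rw [hDe]; exact Nat.mul_div_cancel _ (hspos i hi)
    rw [h2]
    exact ⟨hDS, hDe⟩
  obtain ⟨t, ht⟩ : ∃ t : ℕ → ℕ, t = fun i => lam * (sl / s i) := ⟨_, rfl⟩
  have hti : ∀ i, lam * (sl / s i) = t i := fun i => by rw [ht]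
  simp only [hti]
  have htS : ∀ i < r, t i ∈ S := fun i hi => by rw [← hti]; exact hmul _ hlamS _ (hD i hi).1
  have hlt : ∀ i, lam ∣ t i := fun i => by rw [← hti]; exact dvd_mul_right _ _
  have hN0 : 0 < N := by
    rcases Nat.eq_zero_or_pos N with h | h
    · rw [h] at hN
      have : (0 : ℝ) < n := by exact_mod_cast hn
      simp only [Nat.cast_zero, mul_zero] at hN
      linarith
    · exact h
  have hTne : ∀ i < r, (T i).Nonempty := fun i hi => by
    rw [← Finset.card_pos, hF.size i hi]; exact hN0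
  obtain ⟨τ0, hτ0⟩ := hTne 0 (by omega)
  obtain ⟨c, hc⟩ : ∃ c : ℕ → ℤ → ℤ, c = fun i τ => (t 0 : ℤ) * τ0 - t i * τ := ⟨_, rfl⟩
  have hci : ∀ i τ, c i τ = (t 0 : ℤ) * τ0 - t i * τ := fun i τ => by rw [hc]
  obtain ⟨C, hC⟩ : ∃ C : ℝ, C = ∑ i ∈ range r, ∑ τ ∈ T i, (1 + ((c i τ).natAbs : ℝ)) := ⟨_, rfl⟩
  obtain ⟨K, hK⟩ : ∃ K : ℕ, K = ((range Q) ×ˢ ((range r).sigma T).powerset).card := ⟨_, rfl⟩
  obtain ⟨B, hB⟩ := exists_nat_gt ((2 / ε * (K * n + C) + 1) * (2 * lam))
  refine ⟨B, fun d hd a had x X hX hsum => ?_⟩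
  have hd0 : 0 < d := hpos d hd
  obtain ⟨Bev, hBev⟩ : ∃ B : ℕ → ℤ → ℤ → Prop,
      ∀ i τ E, B i τ E ↔ (a + d * (E + c i τ) = 0 ∨ GZ (a + d * (E + c i τ)) (d * t i)) :=
    ⟨_, fun i τ E => Iff.rfl⟩
  set A : Finset ℤ := (Ioc x (x + X)).filter (AdmE a d lam) with hA
  have hAcard : A.card = cnt (AdmE a d lam) x X := by rw [cnt_eq]
  have hAlow := cnt_admE a d lam hlam0 had x X
  rw [← hAcard] at hAlow hsum
  have hcardT : ∀ i < r, (0 : ℝ) < (T i).card := fun i hi => by exact_mod_cast (hTne i hi).card_pos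
  have hone : ∀ i < r, ∀ τ ∈ T i, ((A.filter fun E => Bev i τ E).card : ℝ) ≤
      (cnt (fun E => GZ (a + d * E) (d * t i)) x X : ℝ) + (1 + ((c i τ).natAbs : ℝ)) := by
    intro i hi τ hτ
    have h1 : (A.filter fun E => Bev i τ E).card ≤
        cnt (fun E => a + d * (E + c i τ) = 0 ∨ GZ (a + d * (E + c i τ)) (d * t i)) x X := by
      rw [cnt_eq]
      refine Finset.card_le_card fun y hy => ?_
      rw [hA, Finset.mem_filter, Finset.mem_filter] at hy
      rw [Finset.mem_filter]
      exact ⟨hy.1.1, (hBev i τ y).1 hy.2⟩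
    have h2 := h1.trans (cnt_or _ _ _ _)
    have h3 : cnt (fun E => a + d * (E + c i τ) = 0) x X ≤ 1 := by
      by_cases hex : ∃ E : ℤ, a + d * (E + c i τ) = 0
      · obtain ⟨E0, hE0⟩ := hex
        refine (cnt_mono (R := fun E => E = E0) (fun E hE => ?_) x X).trans (cnt_single E0 x X)
        have h4 : (d : ℤ) * E = d * E0 := by
          have : a + d * (E + c i τ) = 0 := hE
          linarith
        exact mul_left_cancel₀ (by exact_mod_cast hd0.ne') h4
      · have : cnt (fun E => a + d * (E + c i τ) = 0) x X = 0 := by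
          rw [cnt_eq, Finset.card_eq_zero, Finset.filter_eq_empty_iff]
          intro E _ hE
          exact hex ⟨E, hE⟩
        omega
    have h4 : cnt (fun E => GZ (a + d * (E + c i τ)) (d * t i)) x X ≤
        cnt (fun E => GZ (a + d * E) (d * t i)) x X + (c i τ).natAbs := by
      have := cnt_shift (fun E => GZ (a + d * E) (d * t i)) x X (-(c i τ))
      simp only [sub_neg_eq_add, Int.natAbs_neg] at this
      exact this
    have h5 : (A.filter fun E => Bev i τ E).card ≤
        cnt (fun E => GZ (a + d * E) (d * t i)) x X + (1 + (c i τ).natAbs) := by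
      refine h2.trans ?_
      omega
    exact_mod_cast h5
  have havg : ∑ i ∈ range r, (∑ τ ∈ T i, ((A.filter fun y => Bev i τ y).card : ℝ)) / (T i).card ≤
      (1 - ε) * A.card + C := by
    rw [hC]
    refine (Finset.sum_le_sum (g := fun i =>
      (cnt (fun E => GZ (a + d * E) (d * t i)) x X : ℝ) +
        ∑ τ ∈ T i, (1 + ((c i τ).natAbs : ℝ))) fun i hi => ?_).trans ?_
    · rw [Finset.mem_range] at hi
      rw [div_le_iff₀ (hcardT i hi)]
      have h3 := Finset.sum_le_sum fun τ hτ => hone i hi τ hτ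
      refine h3.trans ?_
      rw [Finset.sum_add_distrib, Finset.sum_const, nsmul_eq_mul, add_mul]
      have h4 : (1 : ℝ) ≤ (T i).card := by exact_mod_cast (hTne i hi).card_pos
      have h5 : (0 : ℝ) ≤ ∑ τ ∈ T i, (1 + ((c i τ).natAbs : ℝ)) :=
        Finset.sum_nonneg fun τ _ => add_nonneg zero_le_one (Nat.cast_nonneg _)
      have h6 := mul_le_mul_of_nonneg_left h4 h5
      rw [mul_one] at h6
      rw [mul_comm ((T i).card : ℝ)]
      linarith
    · rw [Finset.sum_add_distrib]
      exact add_le_add hsum le_rfl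
  have hbig : (((range Q) ×ˢ ((range r).sigma T).powerset).card : ℝ) * n + C ≤ ε / 2 * A.card := by
    rw [← hK]
    have hlamr : (0 : ℝ) < 2 * lam := by positivity
    have h1 : (2 / ε * (K * n + C) + 1) * (2 * lam) < X := hB.trans_le (by exact_mod_cast hX)
    have h2 : (2 / ε * (K * n + C) + 1) < X / (2 * lam) := by rwa [lt_div_iff₀ hlamr]
    have h3 : 2 / ε * (K * n + C) ≤ A.card := by linarith
    have h4 := mul_le_mul_of_nonneg_left h3 (show 0 ≤ ε / 2 by positivity)
    have h5 : ε / 2 * (2 / ε * (K * n + C)) = K * n + C := by field_simp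
    rw [h5] at h4
    exact h4
  obtain ⟨Y, hYA, hYcard, hYQ, T', hT'⟩ := abs_step r T Bev A Q hQ hTne ε hε hε1 C n hn havg hbig
  -- the new groups
  have hcut : ∀ i, ∃ U : Finset ℤ, i < r → U ⊆ T' i ∧ U.card = n := by
    intro i
    by_cases hi : i < r
    · have h1 := (hT' i hi).2.1
      rw [hF.size i hi] at h1
      have h2 : n ≤ (T' i).card := by exact_mod_cast hN.trans h1
      obtain ⟨U, hU1, hU2⟩ := Finset.exists_subset_card_eq h2
      exact ⟨U, fun _ => ⟨hU1, hU2⟩⟩
    · exact ⟨∅, fun h => absurd h hi⟩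
  choose U hU using hcut
  have hUT : ∀ i < r, ∀ τ ∈ U i, τ ∈ T i := fun i hi τ hτ => (hT' i hi).1 ((hU i hi).1 hτ)
  obtain ⟨y, hy⟩ : ∃ y : ℤ → ℤ, y = fun E => a + d * E + (d * t 0 : ℕ) * τ0 := ⟨_, rfl⟩
  have hyE : ∀ E, y E = a + d * E + (d * t 0 : ℕ) * τ0 := fun E => by rw [hy]
  have hyinj : Function.Injective y := by
    intro E E' h
    rw [hyE, hyE] at h
    have h4 : (d : ℤ) * E = d * E' := by linarith
    exact mul_left_cancel₀ (by exact_mod_cast hd0.ne') h4
  obtain ⟨sr, hsr⟩ : ∃ sr, sr = d * lam * sl := ⟨_, rfl⟩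
  have hsrS : sr ∈ S := by rw [hsr]; exact hmul _ (hmul _ hd _ hlamS) _ hslS
  have hsrt : ∀ i < r, sr = d * t i * s i := by
    intro i hi
    rw [hsr, ← hti]
    have := (hD i hi).2
    calc d * lam * sl = d * lam * (sl / s i * s i) := by rw [← this]
      _ = d * (lam * (sl / s i)) * s i := by ring
  have hsrd : ∀ i < r, sr / s i = d * t i := fun i hi => by
    rw [hsrt i hi]; exact Nat.mul_div_cancel _ (hspos i hi)
  -- definitions
  let s' : ℕ → ℕ := fun i => if i < r then s i else sr
  let T'' : ℕ → Finset ℤ := fun i => if i < r then U i else Y.image y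
  have hs'1 : ∀ i < r, s' i = s i := fun i hi => if_pos hi
  have hs'2 : s' r = sr := if_neg (lt_irrefl r)
  have hT1 : ∀ i < r, T'' i = U i := fun i hi => if_pos hi
  have hT2 : T'' r = Y.image y := if_neg (lt_irrefl r)
  have hsize : ∀ i < r + 1, (T'' i).card = n := by
    intro i hi
    rcases Nat.lt_or_ge i r with h | h
    · rw [hT1 i h]; exact (hU i h).2
    · have : i = r := by omega
      rw [this, hT2, Finset.card_image_of_injective _ hyinj, hYcard]
  have hmod : ∀ i < r + 1, ∀ τ ∈ T'' i, ∀ τ' ∈ T'' i, (Q : ℤ) ∣ τ - τ' := by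
    intro i hi τ hτ τ' hτ'
    rcases Nat.lt_or_ge i r with h | h
    · rw [hT1 i h] at hτ hτ'
      exact hF.mod i h τ (hUT i h τ hτ) τ' (hUT i h τ' hτ')
    · have h0 : i = r := by omega
      subst h0
      rw [hT2] at hτ hτ'
      obtain ⟨E, hE, rfl⟩ := Finset.mem_image.1 hτ
      obtain ⟨E', hE', rfl⟩ := Finset.mem_image.1 hτ'
      have h1 : y E - y E' = d * (E - E') := by rw [hyE, hyE]; ring
      rw [h1]
      exact (hYQ E hE E' hE').mul_left _
  refine ⟨s', T'', hsize, ?_, ?_, hmod, ?_, ?_⟩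
  · intro i hi
    rcases Nat.lt_or_ge i r with h | h
    · rw [hs'1 i h]; exact hF.mem i h
    · have : i = r := by omega
      rw [this, hs'2]; exact hsrS
  · intro i j hij hj
    have hir : i < r := by omega
    rw [hs'1 i hir]
    rcases Nat.lt_or_ge j r with h | h
    · rw [hs'1 j h]; exact hF.dvd i j hij h
    · have : j = r := by omega
      rw [this, hs'2]
      exact ⟨d * t i, hmul _ hd _ (htS i hir), hsrt i hir⟩
  · -- admissibility
    intro p hp
    have hpp : Prime (p : ℤ) := Nat.prime_iff_prime_int.mp hp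
    by_cases hps : p ∣ sr
    · obtain ⟨m, hm⟩ := hF.adm p hp
      refine ⟨m, fun i hi τ hτ hdv => ?_⟩
      rcases Nat.lt_or_ge i r with h | h
      · rw [hs'1 i h] at hdv
        rw [hT1 i h] at hτ
        exact hm i h τ (hUT i h τ hτ) hdv
      · have h0 : i = r := by omega
        subst h0
        rw [hs'2] at hdv
        rw [hT2] at hτ
        obtain ⟨E, hE, rfl⟩ := Finset.mem_image.1 hτ
        have h1 : (p : ℤ) ∣ y E := by
          have h2 : (p : ℤ) ∣ (sr : ℤ) * m := (by exact_mod_cast hps : (p : ℤ) ∣ (sr : ℤ)).mul_right _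
          exact (Int.dvd_add_right h2).1 hdv
        by_cases hpd : p ∣ d
        · have h2 : (p : ℤ) ∣ (d : ℤ) := by exact_mod_cast hpd
          have h3 : (p : ℤ) ∣ a := by
            have h4 : y E = a + d * (E + t 0 * τ0) := by rw [hyE]; push_cast; ring
            rw [h4] at h1
            exact (Int.dvd_add_left (h2.mul_right _)).1 h1
          exact hpp.not_isUnit (had.isUnit_of_dvd' h3 h2)
        · have h2 : p ∣ lam := by
            rw [hsr] at hps
            rcases hp.dvd_mul.1 hps with h3 | h3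
            · rcases hp.dvd_mul.1 h3 with h4 | h4
              · exact absurd h4 hpd
              · exact h4
            · rw [hlam]; exact h3.mul_left _
          have h3 : (p : ℤ) ∣ (d * t 0 : ℕ) * τ0 := by
            have : p ∣ d * t 0 := (h2.trans (hlt 0)).mul_left _
            exact (by exact_mod_cast this : (p : ℤ) ∣ ((d * t 0 : ℕ) : ℤ)).mul_right _
          have h4 : (p : ℤ) ∣ a + d * E := by
            rw [hyE] at h1
            exact (Int.dvd_add_left h3).1 h1
          have h5 : AdmE a d lam E := by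
            have := hYA hE
            rw [hA, Finset.mem_filter] at this
            exact this.2
          have h6 : (p : ℤ) ∣ ((Int.gcd (a + d * E) lam : ℕ) : ℤ) :=
            Int.dvd_coe_gcd h4 (by exact_mod_cast h2)
          rw [h5.1] at h6
          have h7 : p ∣ 1 := by exact_mod_cast h6
          exact hp.one_lt.ne' (Nat.dvd_one.1 h7)
    · have hps' : ∀ i < r + 1, ¬ p ∣ s' i := by
        intro i hi hd'
        rcases Nat.lt_or_ge i r with h | h
        · rw [hs'1 i h] at hd'
          apply hps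
          rw [hsrt i h]
          exact hd'.mul_left _
        · have : i = r := by omega
          rw [this, hs'2] at hd'
          exact hps hd'
      have hp3 : p ≠ 3 := by
        rintro rfl
        apply hps
        rw [hsr, hlam]
        exact ((h3μ.mul_right _).mul_left _).mul_right _
      by_cases hp2 : p = 2
      · subst hp2
        obtain ⟨m, hm⟩ := hF.adm 2 hp
        refine ⟨m, fun i hi τ hτ hdv => ?_⟩
        rcases Nat.lt_or_ge i r with h | h
        · rw [hs'1 i h] at hdv
          rw [hT1 i h] at hτ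
          exact hm i h τ (hUT i h τ hτ) hdv
        · have h0 : i = r := by omega
          subst h0
          rw [hs'2] at hdv
          rw [hT2] at hτ
          obtain ⟨E, hE, rfl⟩ := Finset.mem_image.1 hτ
          have h5 : AdmE a d lam E := by
            have := hYA hE
            rw [hA, Finset.mem_filter] at this
            exact this.2
          have hdl : ¬ ((2 : ℕ) : ℤ) ∣ (d * lam : ℤ) := by
            intro h
            apply hps
            have h2 : 2 ∣ d * lam := by exact_mod_cast h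
            rw [hsr]
            exact h2.mul_right _
          have h6 : ((2 : ℕ) : ℤ) ∣ a + d * E := by
            rcases hpp.dvd_or_dvd (by exact_mod_cast h5.2 : ((2 : ℕ) : ℤ) ∣ (a + d * E) * (d * lam)) with h | h
            · exact h
            · exact absurd h hdl
          have h7 : (sr : ℤ) * m + y E = (a + d * E) + ((d * t 0 : ℕ) : ℤ) * (s 0 * m + τ0) := by
            have := hsrt 0 (by omega)
            rw [hyE, this]
            push_cast
            ring
          rw [h7] at hdv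
          have h8 := (Int.dvd_add_right h6).1 hdv
          rcases hpp.dvd_or_dvd h8 with h9 | h9
          · apply hps
            rw [hsrt 0 (by omega)]
            exact (by exact_mod_cast h9 : 2 ∣ d * t 0).mul_right _
          · exact hm 0 (by omega) τ0 hτ0 h9
      · have hp5 : 5 ≤ p := by
          have h2 := hp.two_le
          by_contra hlt5
          have h4 : p = 4 := by omega
          rw [h4] at hp
          exact absurd hp (by norm_num)
        have hTn : ∀ i < r + 1, (T'' i).Nonempty := fun i hi => by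
          rw [← Finset.card_pos, hsize i hi]; exact hn
        by_cases hpQ : p ∣ Q
        · have hrep : ∀ i, ∃ e : ℤ, i < r + 1 → e ∈ T'' i := by
            intro i
            by_cases hi : i < r + 1
            · obtain ⟨e, he⟩ := hTn i hi
              exact ⟨e, fun _ => he⟩
            · exact ⟨0, fun h => absurd h hi⟩
          choose e he using hrep
          obtain ⟨m, hm⟩ := big (range (r + 1)) p hp (by rw [Finset.card_range]; omega) s' e
            (fun i hi => hps' i (Finset.mem_range.1 hi))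
          refine ⟨m, fun i hi τ hτ hdv => hm i (Finset.mem_range.2 hi) ?_⟩
          have h1 := hmod i hi (e i) (he i hi) τ hτ
          have h2 := dvd_add hdv ((by exact_mod_cast hpQ : (p : ℤ) ∣ (Q : ℤ)).trans h1)
          have h3 : (s' i : ℤ) * m + τ + (e i - τ) = s' i * m + e i := by ring
          rwa [h3] at h2
        · have hpk : (r + 1) * n < p := by
            by_contra hle
            exact hpQ (hQn p hp (by omega))
          obtain ⟨m, hm⟩ := big ((range (r + 1)).sigma T'') p hp
            (by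
              rw [Finset.card_sigma, Finset.sum_congr rfl (fun i hi => hsize i (Finset.mem_range.1 hi)),
                Finset.sum_const, Finset.card_range, smul_eq_mul]
              exact hpk)
            (fun q => s' q.1) (fun q => q.2)
            (fun q hq => hps' q.1 (Finset.mem_range.1 (Finset.mem_sigma.1 hq).1))
          exact ⟨m, fun i hi τ hτ => hm ⟨i, τ⟩ (Finset.mem_sigma.2 ⟨Finset.mem_range.2 hi, hτ⟩)⟩
  · -- bad pairs
    intro i j hij hj τ hτ τ' hτ'
    have hir : i < r := by omega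
    rw [hT1 i hir] at hτ
    rw [hs'1 i hir]
    rcases Nat.lt_or_ge j r with h | h
    · rw [hT1 j h] at hτ'
      rw [hs'1 j h]
      exact hF.bad i j hij h τ (hUT i hir τ hτ) τ' (hUT j h τ' hτ')
    · have h0 : j = r := by omega
      subst h0
      rw [hT2] at hτ'
      rw [hs'2, hsrd i hir]
      obtain ⟨E, hE, rfl⟩ := Finset.mem_image.1 hτ'
      have h1 : y E - (d * t i : ℕ) * τ = a + d * (E + c i τ) := by
        rw [hyE, hci]; push_cast; ring
      rw [h1]
      have h2 : ¬ Bev i τ E := (hT' i hir).2.2 τ ((hU i hir).1 hτ) E hE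
      rw [hBev] at h2
      exact ⟨fun h => h2 (Or.inl h), fun h => h2 (Or.inr h)⟩

end Pool.Agent.PolD
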