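import Pool.Agent.PolD.Every3b
import Pool.Agent.SL.OutP

/-! Every pair `(a, d)`: a third of the modifications `(a + d E, d t)` for one of three multipliers `t`. -/

set_option autoImplicit false

namespace Pool.Agent.PolD

open Finset Pool.Agent.SL

theorem fch_one (S : Set ℕ) (h1S : 1 ∈ S) (n : ℕ) (Q : ℕ) (hQ : 0 < Q)
    (hQn : ∀ p : ℕ, p.Prime → p ≤ n → p ∣ Q) :
    FCh S Q 1 n (fun _ => 1) (fun _ => (range n).image fun j : ℕ => (Q : ℤ) * j) := by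
  classical
  have hQz : (Q : ℤ) ≠ 0 := by exact_mod_cast hQ.ne'
  have hinj : Function.Injective fun j : ℕ => (Q : ℤ) * j := by
    intro a b h
    exact_mod_cast mul_left_cancel₀ hQz h
  refine ⟨?_, fun _ _ => h1S, fun i j hij hj => by omega, ?_, ?_, fun i j hij hj => by omega⟩
  · intro i _
    rw [Finset.card_image_of_injective _ hinj, Finset.card_range]
  · intro i _ t ht t' ht'
    obtain ⟨j, _, rfl⟩ := Finset.mem_image.1 ht
    obtain ⟨j', _, rfl⟩ := Finset.mem_image.1 ht'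
    exact ⟨(j : ℤ) - j', by ring⟩
  · intro p hp
    by_cases hpn : p ≤ n
    · refine ⟨1, fun i _ t ht hd => ?_⟩
      obtain ⟨j, _, rfl⟩ := Finset.mem_image.1 ht
      have h1 : (p : ℤ) ∣ (Q : ℤ) * j := (by exact_mod_cast hQn p hp hpn : (p : ℤ) ∣ (Q : ℤ)).mul_right _
      have h2 := (Int.dvd_add_left h1).1 hd
      have h3 : p ∣ 1 := by
        have : (p : ℤ) ∣ 1 := by simpa using h2
        exact_mod_cast this
      exact hp.one_lt.ne' (Nat.dvd_one.1 h3)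
    · obtain ⟨m, hm⟩ := big ((range n).image fun j : ℕ => (Q : ℤ) * j) p hp
        (by rw [Finset.card_image_of_injective _ hinj, Finset.card_range]; omega) (fun _ => 1) (fun t => t)
        (fun _ _ hd => hp.one_lt.ne' (Nat.dvd_one.1 hd))
      exact ⟨m, fun i _ t ht => hm t ht⟩

theorem fch_four (k : ℕ) (hk : 1 ≤ k) (hD : DHLG 4 (4 * k)) (S : Set ℕ) (hpos : ∀ a ∈ S, 0 < a) (Q : ℕ)
    (s : ℕ → ℕ) (T : ℕ → Finset ℤ) (hF : FCh S Q 4 k s T) : False := by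
  classical
  have hen : ∀ g, ∃ f : ℕ → ℤ, g < 4 → (∀ i < k, f i ∈ T g) ∧ ∀ i < k, ∀ j < k, f i = f j → i = j := by
    intro g
    by_cases hg : g < 4
    · obtain ⟨f, hf⟩ := enum (T g) k (hF.size g hg).ge
      exact ⟨f, fun _ => hf⟩
    · exact ⟨fun _ => 0, fun h => absurd h hg⟩
  choose h hh using hen
  refine gch_lt 4 (4 * k) k hk rfl hD s h ⟨fun i hi => hpos _ (hF.mem i hi), ?_, ?_, ?_⟩
  · intro g hg i hi j hj hij
    exact (hh g hg).2 i hi j hj hij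
  · intro p hp
    obtain ⟨m, hm⟩ := hF.adm p hp
    exact ⟨m, fun g hg i hi => hm g hg _ ((hh g hg).1 i hi)⟩
  · intro g g' hgg hg'
    have hg : g < 4 := by omega
    obtain ⟨D, hDS, hDe⟩ := hF.dvd g g' hgg hg'
    have hsg : 0 < s g := hpos _ (hF.mem g hg)
    have h1 : s g' / s g = D := by rw [hDe]; exact Nat.mul_div_cancel _ hsg
    refine ⟨D, hpos _ hDS, hDe, ?_⟩
    intro i hi j hj
    have := hF.bad g g' hgg hg' _ ((hh g hg).1 i hi) _ ((hh g' hg').1 j hj)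
    rwa [h1] at this

/-- **Every pair: three multipliers, a third of the modifications.** -/
theorem every3 (k : ℕ) (hk : 1 ≤ k) (hD : DHLG 4 (4 * k)) (S : Set ℕ) (h1S : 1 ∈ S)
    (hmul : ∀ a ∈ S, ∀ b ∈ S, a * b ∈ S) (hpos : ∀ a ∈ S, 0 < a) (h3 : ∃ μ ∈ S, 3 ∣ μ) (ε : ℝ) (hε : 0 < ε) :
    ∃ (t : Fin 3 → ℕ) (B : ℕ), (∀ i, t i ∈ S) ∧ (∀ i, (t i).primeFactors = (t 0).primeFactors) ∧
      ∀ d ∈ S, ∀ a : ℤ, Int.gcd a d = 1 → ∀ (x : ℤ) (X : ℕ), B ≤ X →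
      (1 - ε) * (cnt (fun E => Int.gcd (a + d * E) (t 0) = 1 ∧ 2 ∣ (a + d * E) * (d * t 0)) x X : ℝ) ≤
        ∑ i, (cnt (fun E => GoodP (a + d * E) (d * t i)) x X : ℝ) := by
  classical
  obtain ⟨μ, hμS, h3μ⟩ := h3
  obtain ⟨ε', hε'⟩ : ∃ ε', ε' = min ε 1 := ⟨_, rfl⟩
  have hε'0 : 0 < ε' := by rw [hε']; exact lt_min hε one_pos
  have hε'1 : ε' ≤ 1 := by rw [hε']; exact min_le_right _ _
  have hε'ε : ε' ≤ ε := by rw [hε']; exact min_le_left _ _
  obtain ⟨f, hf⟩ : ∃ f : ℕ → ℕ, ∀ n : ℕ, (n : ℝ) ≤ ε' / 2 * f n ∧ n ≤ f n := by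
    refine ⟨fun n => ⌈2 * n / ε'⌉₊, fun n => ?_⟩
    have h1 : (2 * n / ε' : ℝ) ≤ ⌈(2 * n / ε' : ℝ)⌉₊ := Nat.le_ceil _
    have h2 : (n : ℝ) ≤ ε' / 2 * ⌈(2 * n / ε' : ℝ)⌉₊ := by
      rw [div_le_iff₀ hε'0] at h1
      linarith
    refine ⟨h2, ?_⟩
    have h3 : (n : ℝ) ≤ ⌈(2 * n / ε' : ℝ)⌉₊ := by
      refine h2.trans ?_
      have h4 : (0 : ℝ) ≤ ⌈(2 * n / ε' : ℝ)⌉₊ := Nat.cast_nonneg _
      nlinarith
    exact_mod_cast h3
  obtain ⟨N, hN⟩ : ∃ N : ℕ → ℕ, N = fun r => if r = 1 then f (f (f k)) else if r = 2 then f (f k) else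
    if r = 3 then f k else k := ⟨_, rfl⟩
  have hN1 : N 1 = f (f (f k)) := by rw [hN]; rfl
  have hN2 : N 2 = f (f k) := by rw [hN]; rfl
  have hN3 : N 3 = f k := by rw [hN]; rfl
  have hN4 : N 4 = k := by rw [hN]; rfl
  have hstep : ∀ r, 1 ≤ r → r ≤ 3 → N r = f (N (r + 1)) := by
    intro r h1 h2
    interval_cases r
    · rw [hN1, hN2]
    · rw [hN2, hN3]
    · rw [hN3, hN4]
  have hle4 : N 4 ≤ N 3 := by rw [hstep 3 (by norm_num) le_rfl]; exact (hf _).2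
  have hle3 : N 3 ≤ N 2 := by rw [hstep 2 (by norm_num) (by norm_num)]; exact (hf _).2
  have hle2 : N 2 ≤ N 1 := by rw [hstep 1 (by norm_num) (by norm_num)]; exact (hf _).2
  have hk4 : 0 < N 4 := by rw [hN4]; exact hk
  obtain ⟨Q, hQ⟩ : ∃ Q, Q = (4 * N 1).factorial := ⟨_, rfl⟩
  have hQ0 : 0 < Q := by rw [hQ]; exact Nat.factorial_pos _
  have hQp : ∀ p : ℕ, p.Prime → p ≤ 4 * N 1 → p ∣ Q := fun p hp hle => by
    rw [hQ]; exact (Nat.Prime.dvd_factorial hp).2 hle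
  have h4 : ¬ ∃ (s : ℕ → ℕ) (T : ℕ → Finset ℤ), FCh S Q 4 (N 4) s T := by
    rintro ⟨s, T, hF⟩
    rw [hN4] at hF
    exact fch_four k hk hD S hpos Q s T hF
  have h1 : ∃ (s : ℕ → ℕ) (T : ℕ → Finset ℤ), FCh S Q 1 (N 1) s T :=
    ⟨_, _, fch_one S h1S (N 1) Q hQ0 (fun p hp hle => hQp p hp (by omega))⟩
  obtain ⟨r, hr1, hr3, ⟨s, T, hF⟩, hnF⟩ : ∃ r, 1 ≤ r ∧ r ≤ 3 ∧
      (∃ (s : ℕ → ℕ) (T : ℕ → Finset ℤ), FCh S Q r (N r) s T) ∧
      ¬ ∃ (s : ℕ → ℕ) (T : ℕ → Finset ℤ), FCh S Q (r + 1) (N (r + 1)) s T := by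
    by_cases h2 : ∃ (s : ℕ → ℕ) (T : ℕ → Finset ℤ), FCh S Q 2 (N 2) s T
    · by_cases h3 : ∃ (s : ℕ → ℕ) (T : ℕ → Finset ℤ), FCh S Q 3 (N 3) s T
      · exact ⟨3, by norm_num, le_rfl, h3, h4⟩
      · exact ⟨2, by norm_num, by norm_num, h2, h3⟩
    · exact ⟨1, le_rfl, by norm_num, h1, h2⟩
  have hNr : N (r + 1) ≤ N 1 ∧ 0 < N (r + 1) := by
    interval_cases r
    · show N 2 ≤ N 1 ∧ 0 < N 2
      exact ⟨hle2, by omega⟩
    · show N 3 ≤ N 1 ∧ 0 < N 3
      exact ⟨by omega, by omega⟩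
    · show N 4 ≤ N 1 ∧ 0 < N 4
      exact ⟨by omega, hk4⟩
  obtain ⟨B, hB⟩ := extend S h1S hmul hpos μ hμS h3μ Q hQ0 ε' hε'0 hε'1 r (N r) (N (r + 1)) hr1 hr3 hNr.2
    (by rw [hstep r hr1 hr3]; exact (hf _).1)
    (fun p hp hle => hQp p hp (by
      have h5 : (r + 1) * N (r + 1) ≤ 4 * N 1 := Nat.mul_le_mul (by omega) hNr.1
      omega)) s T hF
  -- the multipliers
  have hsl : s (r - 1) ∈ S := hF.mem _ (by omega)
  have hspos : ∀ i < r, 0 < s i := fun i hi => hpos _ (hF.mem i hi)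
  have hDi : ∀ i < r, s (r - 1) / s i ∈ S ∧ s (r - 1) = s (r - 1) / s i * s i := by
    intro i hi
    have h : ∃ D ∈ S, s (r - 1) = D * s i := by
      rcases Nat.lt_or_ge i (r - 1) with h | h
      · exact hF.dvd i (r - 1) h (by omega)
      · have : i = r - 1 := by omega
        exact ⟨1, h1S, by rw [this, one_mul]⟩
    obtain ⟨D, hDS, hDe⟩ := h
    have h2 : s (r - 1) / s i = D := by rw [hDe]; exact Nat.mul_div_cancel _ (hspos i hi)
    rw [h2]
    exact ⟨hDS, hDe⟩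
  obtain ⟨tt, htt⟩ : ∃ tt : ℕ → ℕ, tt = fun i => μ * s (r - 1) * (s (r - 1) / s (if i < r then i else 0)) :=
    ⟨_, rfl⟩
  have htt1 : ∀ i < r, tt i = μ * s (r - 1) * (s (r - 1) / s i) := fun i hi => by
    rw [htt]; simp only [hi, if_true]
  have httS : ∀ i, tt i ∈ S := by
    intro i
    rw [htt]
    show μ * s (r - 1) * (s (r - 1) / s (if i < r then i else 0)) ∈ S
    refine hmul _ (hmul _ hμS _ hsl) _ ?_
    split_ifs with h
    · exact (hDi i h).1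
    · exact (hDi 0 (by omega)).1
  have http : ∀ i, (tt i).primeFactors = (μ * s (r - 1)).primeFactors := by
    intro i
    rw [htt]
    show (μ * s (r - 1) * (s (r - 1) / s (if i < r then i else 0))).primeFactors = _
    have h5 : s (r - 1) / s (if i < r then i else 0) ∈ S ∧
        s (r - 1) / s (if i < r then i else 0) ∣ s (r - 1) := by
      split_ifs with h
      · exact ⟨(hDi i h).1, Nat.div_dvd_of_dvd ⟨_, by rw [mul_comm]; exact (hDi i h).2⟩⟩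
      · exact ⟨(hDi 0 (by omega)).1, Nat.div_dvd_of_dvd ⟨_, by rw [mul_comm]; exact (hDi 0 (by omega)).2⟩⟩
    have h6 : μ * s (r - 1) ≠ 0 := (Nat.mul_pos (hpos _ hμS) (hpos _ hsl)).ne'
    rw [Nat.primeFactors_mul h6 (hpos _ h5.1).ne']
    exact Finset.union_eq_left.2 (Nat.primeFactors_mono (h5.2.mul_left μ) h6)
  refine ⟨fun i => tt i, B, fun i => httS i, fun i => (http i).trans (http _).symm, ?_⟩
  intro d hd a had x X hX
  by_contra hcon
  push Not at hcon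
  apply hnF
  refine hB d hd a (Int.isCoprime_iff_gcd_eq_one.2 had) x X hX ?_
  have hd0 : 0 < d := hpos d hd
  -- left side
  have hL : ∑ i ∈ range r, (cnt (fun E => GZ (a + d * E) (d * (μ * s (r - 1) * (s (r - 1) / s i)))) x X : ℝ) ≤
      ∑ i : Fin 3, (cnt (fun E => GoodP (a + d * E) (d * tt i)) x X : ℝ) := by
    rw [Fin.sum_univ_eq_sum_range (fun i => (cnt (fun E => GoodP (a + d * E) (d * tt i)) x X : ℝ)) 3]
    refine le_trans (Finset.sum_le_sum (g := fun i =>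
      (cnt (fun E => GoodP (a + d * E) (d * tt i)) x X : ℝ)) fun i hi => ?_) ?_
    · rw [Finset.mem_range] at hi
      rw [← htt1 i hi]
      have h5 : cnt (fun E => GZ (a + d * E) (d * tt i)) x X ≤ cnt (fun E => GoodP (a + d * E) (d * tt i)) x X := by
        refine cnt_mono (fun E hE => ?_) x X
        have h6 := GZ.good (Nat.mul_pos hd0 (hpos _ (httS i))) hE
        push_cast at h6
        exact h6
      exact_mod_cast h5
    · refine Finset.sum_le_sum_of_subset_of_nonneg ?_ fun _ _ _ => Nat.cast_nonneg _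
      intro i hi
      rw [Finset.mem_range] at hi ⊢
      omega
  refine hL.trans (hcon.le.trans ?_)
  -- right side
  have hR : cnt (fun E => Int.gcd (a + d * E) (tt (0 : Fin 3)) = 1 ∧ 2 ∣ (a + d * E) * (d * tt (0 : Fin 3))) x X ≤
      cnt (AdmE a d (μ * s (r - 1))) x X := by
    refine cnt_mono (fun E hE => ?_) x X
    obtain ⟨h5, h6⟩ := hE
    have h7 : tt ((0 : Fin 3) : ℕ) = μ * s (r - 1) * (s (r - 1) / s 0) := htt1 0 (by omega)
    rw [h7] at h5 h6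
    constructor
    · rw [← Int.isCoprime_iff_gcd_eq_one] at h5 ⊢
      push_cast at h5 ⊢
      exact IsCoprime.of_mul_right_left h5
    · have h2p : Prime (2 : ℤ) := Int.prime_two
      rcases h2p.dvd_or_dvd h6 with h8 | h8
      · exact h8.mul_right _
      · refine Dvd.dvd.mul_left ?_ _
        rcases h2p.dvd_or_dvd h8 with h9 | h9
        · exact h9.mul_right _
        · refine Dvd.dvd.mul_left ?_ _
          have h10 : 2 ∣ μ * s (r - 1) * (s (r - 1) / s 0) := by exact_mod_cast h9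
          have h11 : 2 ∣ μ * s (r - 1) := by
            rcases Nat.prime_two.dvd_mul.1 h10 with h12 | h12
            · exact h12
            · refine Dvd.dvd.mul_left ?_ _
              rw [(hDi 0 (by omega)).2]
              exact h12.mul_right _
          exact_mod_cast h11
  have hR' : (cnt (fun E => Int.gcd (a + d * E) (tt (0 : Fin 3)) = 1 ∧
      2 ∣ (a + d * E) * (d * tt (0 : Fin 3))) x X : ℝ) ≤
      cnt (AdmE a d (μ * s (r - 1))) x X := by exact_mod_cast hR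
  have h5 : (0 : ℝ) ≤ (cnt (fun E => Int.gcd (a + d * E) (tt (0 : Fin 3)) = 1 ∧
    2 ∣ (a + d * E) * (d * tt (0 : Fin 3))) x X : ℝ) := Nat.cast_nonneg _
  calc _ ≤ (1 - ε') * (cnt (fun E => Int.gcd (a + d * E) (tt (0 : Fin 3)) = 1 ∧
        2 ∣ (a + d * E) * (d * tt (0 : Fin 3))) x X : ℝ) :=
        mul_le_mul_of_nonneg_right (by linarith) h5
    _ ≤ _ := mul_le_mul_of_nonneg_left hR' (by linarith)

end Pool.Agent.PolD
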