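import Pool.Agent.SL.EveryG

/-! Density of good pairs `(a, d)`: the greedy construction of groups of linear forms with all pairs from
different groups bad, from the theorem on `G` groups of forms. -/

set_option autoImplicit false

namespace Pool.Agent.PolD

open Finset Pool.Agent.SL

open Classical in
/-- the number of `a` in `(x, x + X]` with the property `P` -/
noncomputable def cnt (P : ℤ → Prop) (x : ℤ) (X : ℕ) : ℕ := ((Ioc x (x + X)).filter P).card

theorem cnt_eq (P : ℤ → Prop) [DecidablePred P] (x : ℤ) (X : ℕ) :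
    cnt P x X = ((Ioc x (x + X)).filter P).card := by
  unfold cnt
  congr

theorem cnt_mono {P R : ℤ → Prop} (h : ∀ a, P a → R a) (x : ℤ) (X : ℕ) : cnt P x X ≤ cnt R x X := by
  classical
  unfold cnt
  refine Finset.card_le_card fun a ha => ?_
  rw [Finset.mem_filter] at ha ⊢
  exact ⟨ha.1, h a ha.2⟩

theorem cnt_or (P R : ℤ → Prop) (x : ℤ) (X : ℕ) : cnt (fun a => P a ∨ R a) x X ≤ cnt P x X + cnt R x X := by
  classical
  rw [cnt_eq, cnt_eq, cnt_eq, Finset.filter_or]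
  exact Finset.card_union_le _ _

theorem cnt_single (b : ℤ) (x : ℤ) (X : ℕ) : cnt (fun a => a = b) x X ≤ 1 := by
  classical
  rw [cnt_eq]
  refine (Finset.card_le_card (t := {b}) ?_).trans (Finset.card_singleton b).le
  intro a ha
  rw [Finset.mem_filter] at ha
  rw [Finset.mem_singleton]
  exact ha.2

/-- shifting an interval -/
theorem cnt_shift (P : ℤ → Prop) (x : ℤ) (X : ℕ) (c : ℤ) :
    cnt (fun a => P (a - c)) x X ≤ cnt P x X + c.natAbs := by
  classical
  unfold cnt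
  have h1 : (((Ioc x (x + X)).filter fun a => P (a - c)).image fun a => a - c) ⊆
      (Ioc x (x + X)).filter P ∪ (Ioc (x - c) x ∪ Ioc (x + X) (x + X - c)) := by
    intro b hb
    obtain ⟨a, ha, rfl⟩ := Finset.mem_image.1 hb
    rw [Finset.mem_filter, Finset.mem_Ioc] at ha
    rw [Finset.mem_union, Finset.mem_union, Finset.mem_filter, Finset.mem_Ioc, Finset.mem_Ioc, Finset.mem_Ioc]
    by_cases h2 : a - c ≤ x
    · exact Or.inr (Or.inl ⟨by omega, h2⟩)
    · by_cases h3 : a - c ≤ x + X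
      · exact Or.inl ⟨⟨by omega, h3⟩, ha.2⟩
      · exact Or.inr (Or.inr ⟨by omega, by omega⟩)
  have h2 := Finset.card_le_card h1
  rw [Finset.card_image_of_injective _ (sub_left_injective)] at h2
  refine h2.trans ((Finset.card_union_le _ _).trans ?_)
  refine Nat.add_le_add_left ((Finset.card_union_le _ _).trans ?_) _
  rw [Int.card_Ioc, Int.card_Ioc]
  omega

/-- a residue class in an interval -/
theorem cnt_class (Q : ℕ) (hQ : 0 < Q) (c x : ℤ) (X : ℕ) :
    (X : ℝ) / Q - 1 ≤ cnt (fun a => a ≡ c [ZMOD Q]) x X := by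
  classical
  rw [cnt_eq]
  have hQ' : (0 : ℤ) < Q := by exact_mod_cast hQ
  have h1 := Int.Ioc_filter_modEq_card x (x + X) hQ' c
  obtain ⟨F1, hF1⟩ : ∃ F : ℤ, F = ⌊(((x + X : ℤ) : ℚ) - c) / ((Q : ℤ) : ℚ)⌋ := ⟨_, rfl⟩
  obtain ⟨F2, hF2⟩ : ∃ F : ℤ, F = ⌊((x : ℚ) - c) / ((Q : ℤ) : ℚ)⌋ := ⟨_, rfl⟩
  have h3 : ((((x + X : ℤ) : ℚ) - c) / ((Q : ℤ) : ℚ)) < F1 + 1 := by rw [hF1]; exact Int.lt_floor_add_one _
  have h4 : (F2 : ℚ) ≤ ((x : ℚ) - c) / ((Q : ℤ) : ℚ) := by rw [hF2]; exact Int.floor_le _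
  rw [← hF1, ← hF2] at h1
  have h6 : F1 - F2 ≤ ((((Ioc x (x + X)).filter fun a => a ≡ c [ZMOD Q]).card : ℕ) : ℤ) := by
    rw [h1]; exact le_max_left _ _
  have h7 : (F1 : ℝ) - F2 ≤ (((Ioc x (x + X)).filter fun a => a ≡ c [ZMOD Q]).card : ℝ) := by
    exact_mod_cast h6
  have hQr : (0 : ℝ) < Q := by exact_mod_cast hQ
  have h3' : ((x : ℝ) + X - c) / Q < (F1 : ℝ) + 1 := by
    have := (Rat.cast_lt (K := ℝ)).2 h3
    push_cast at this
    exact this
  have h4' : (F2 : ℝ) ≤ ((x : ℝ) - c) / Q := by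
    have := (Rat.cast_le (K := ℝ)).2 h4
    push_cast at this
    exact this
  have h5 : ((x : ℝ) + X - c) / Q = (X : ℝ) / Q + ((x : ℝ) - c) / Q := by ring
  linarith

/-- the greedy step -/
theorem greedy_step (r : ℕ) (T : ℕ → Finset ℤ) (m : ℕ → ℕ) (Q Q' : ℕ) (hQ : 0 < Q) (hQ' : 0 < Q')
    (w : ℕ → ℤ) (c : ℤ) (hT : ∀ i < r, (T i).Nonempty) (hcl : ∀ i < r, ∀ t ∈ T i, t ≡ w i [ZMOD Q])
    (ε : ℝ) (hε : 0 < ε) (hε1 : ε ≤ 1)
    (hbad : ∀ H : ℕ, ∃ (x : ℤ) (X : ℕ), H ≤ X ∧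
      ∑ i ∈ range r, (cnt (fun a => a ≡ c - m i * w i [ZMOD Q] ∧ GZ a (m i)) x X : ℝ) ≤ (1 - ε) * (X / Q))
    (n : ℕ) (hn : 0 < n) :
    ∃ Y : Finset ℤ, Y.card = n ∧ (∀ y ∈ Y, y ≡ c [ZMOD Q]) ∧ (∀ y ∈ Y, ∀ y' ∈ Y, (Q' : ℤ) ∣ y - y') ∧
      ∃ T' : ℕ → Finset ℤ, ∀ i < r, T' i ⊆ T i ∧ ε / 2 * (T i).card ≤ ((T' i).card : ℝ) ∧
        ∀ t ∈ T' i, ∀ y ∈ Y, y - m i * t ≠ 0 ∧ ¬ GZ (y - m i * t) (m i) := by
  classical
  -- the good pairs
  let B : ℕ → ℤ → ℤ → Prop := fun i t y => y - m i * t = 0 ∨ GZ (y - m i * t) (m i)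
  let P : Finset (Σ _ : ℕ, ℤ) := (range r).sigma T
  obtain ⟨C, hC⟩ : ∃ C : ℝ, C = ∑ i ∈ range r, ∑ t ∈ T i, (1 + ((m i * t).natAbs : ℝ)) := ⟨_, rfl⟩
  have hC0 : 0 ≤ C := by rw [hC]; positivity
  have hQr : (0 : ℝ) < Q := by exact_mod_cast hQ
  obtain ⟨K, hK⟩ : ∃ K : ℕ, K = ((range Q') ×ˢ P.powerset).card := ⟨_, rfl⟩
  obtain ⟨H, hH⟩ := exists_nat_gt ((K * n + 1 + C) * (2 * Q / ε))
  obtain ⟨x, X, hHX, hcnt⟩ := hbad H
  set I : Finset ℤ := (Ioc x (x + X)).filter fun y => y ≡ c [ZMOD Q] with hI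
  have hIcard : (X : ℝ) / Q - 1 ≤ I.card := by
    have := cnt_class Q hQ c x X
    rwa [cnt_eq] at this
  let W : ℤ → ℝ := fun y => ∑ i ∈ range r, (((T i).filter fun t => B i t y).card : ℝ) / (T i).card
  have hcardT : ∀ i < r, (0 : ℝ) < (T i).card := fun i hi => by exact_mod_cast (hT i hi).card_pos
  -- the average
  have hone : ∀ i < r, ∀ t ∈ T i, ((I.filter fun y => B i t y).card : ℝ) ≤
      (cnt (fun a => a ≡ c - m i * w i [ZMOD Q] ∧ GZ a (m i)) x X : ℝ) + (1 + ((m i * t).natAbs : ℝ)) := by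
    intro i hi t ht
    have h1 : (I.filter fun y => B i t y).card ≤
        cnt (fun y => y = m i * t ∨ ((y - m i * t) ≡ c - m i * w i [ZMOD Q] ∧ GZ (y - m i * t) (m i))) x X := by
      rw [cnt_eq]
      refine Finset.card_le_card fun y hy => ?_
      rw [hI, Finset.mem_filter, Finset.mem_filter] at hy
      rw [Finset.mem_filter]
      refine ⟨hy.1.1, ?_⟩
      rcases hy.2 with h2 | h2
      · exact Or.inl (by linarith)
      · exact Or.inr ⟨Int.ModEq.sub hy.1.2 (Int.ModEq.mul_left _ (hcl i hi t ht)), h2⟩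
    have h2 := h1.trans (cnt_or _ _ _ _)
    have h3 := cnt_single (m i * t) x X
    have h4 := cnt_shift (fun a => a ≡ c - m i * w i [ZMOD Q] ∧ GZ a (m i)) x X (m i * t)
    have h5 : (I.filter fun y => B i t y).card ≤
        cnt (fun a => a ≡ c - m i * w i [ZMOD Q] ∧ GZ a (m i)) x X + (1 + (m i * t).natAbs) := by
      refine h2.trans ?_
      omega
    exact_mod_cast h5
  have hsumW : ∑ y ∈ I, W y ≤ (1 - ε) * (X / Q) + C := by
    have h1 : ∑ y ∈ I, W y = ∑ i ∈ range r, (∑ t ∈ T i, ((I.filter fun y => B i t y).card : ℝ)) / (T i).card := by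
      show ∑ y ∈ I, ∑ i ∈ range r, (((T i).filter fun t => B i t y).card : ℝ) / (T i).card = _
      rw [Finset.sum_comm]
      refine Finset.sum_congr rfl fun i _ => ?_
      rw [← Finset.sum_div]
      congr 1
      have h2 : ∀ y ∈ I, (((T i).filter fun t => B i t y).card : ℝ) = ∑ t ∈ T i, if B i t y then 1 else 0 := by
        intro y _
        rw [Finset.card_filter]
        push_cast
        rfl
      rw [Finset.sum_congr rfl h2, Finset.sum_comm]
      refine Finset.sum_congr rfl fun t _ => ?_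
      rw [Finset.card_filter]
      push_cast
      rfl
    rw [h1, hC]
    refine (Finset.sum_le_sum (g := fun i =>
      (cnt (fun a => a ≡ c - m i * w i [ZMOD Q] ∧ GZ a (m i)) x X : ℝ) +
        ∑ t ∈ T i, (1 + ((m i * t).natAbs : ℝ))) fun i hi => ?_).trans ?_
    · rw [Finset.mem_range] at hi
      rw [div_le_iff₀ (hcardT i hi)]
      have h3 := Finset.sum_le_sum fun t ht => hone i hi t ht
      refine h3.trans ?_
      rw [Finset.sum_add_distrib, Finset.sum_const, nsmul_eq_mul, add_mul]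
      have h4 : (1 : ℝ) ≤ (T i).card := by exact_mod_cast (hT i hi).card_pos
      have h5 : (0 : ℝ) ≤ ∑ t ∈ T i, (1 + ((m i * t).natAbs : ℝ)) := by positivity
      have h6 := mul_le_mul_of_nonneg_left h4 h5
      rw [mul_one] at h6
      have h7 : (0 : ℝ) ≤ (cnt (fun a => a ≡ c - m i * w i [ZMOD Q] ∧ GZ a (m i)) x X : ℝ) := Nat.cast_nonneg _
      rw [mul_comm ((T i).card : ℝ)]
      linarith
    · rw [Finset.sum_add_distrib]
      exact add_le_add hcnt le_rfl
  -- many good `y`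
  set J : Finset ℤ := I.filter fun y => W y ≤ 1 - ε / 2 with hJ
  have hW0 : ∀ y, 0 ≤ W y := fun y => Finset.sum_nonneg fun i _ => by positivity
  have hJcard : (K * n : ℝ) ≤ J.card := by
    have h1 : (1 - ε / 2) * (I.card - J.card : ℝ) ≤ ∑ y ∈ I, W y := by
      have h2 : (I.card - J.card : ℝ) = ((I.filter fun y => ¬ W y ≤ 1 - ε / 2).card : ℝ) := by
        have h3 := Finset.card_filter_add_card_filter_not (s := I) (fun y => W y ≤ 1 - ε / 2)
        rw [← hJ] at h3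
        have h4 : (J.card : ℝ) + ((I.filter fun y => ¬ W y ≤ 1 - ε / 2).card : ℝ) = I.card := by exact_mod_cast h3
        linarith
      rw [h2]
      calc (1 - ε / 2) * ((I.filter fun y => ¬ W y ≤ 1 - ε / 2).card : ℝ)
          = ∑ y ∈ I.filter (fun y => ¬ W y ≤ 1 - ε / 2), (1 - ε / 2) := by
            rw [Finset.sum_const, nsmul_eq_mul, mul_comm]
        _ ≤ ∑ y ∈ I.filter (fun y => ¬ W y ≤ 1 - ε / 2), W y :=
            Finset.sum_le_sum fun y hy => (not_le.1 (Finset.mem_filter.1 hy).2).le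
        _ ≤ ∑ y ∈ I, W y := Finset.sum_le_sum_of_subset_of_nonneg (Finset.filter_subset _ _) fun y _ _ => hW0 y
    have h2 : (H : ℝ) ≤ X := by exact_mod_cast hHX
    have h3 : (K * n + 1 + C) * (2 * Q / ε) < X := hH.trans_le h2
    have h4 : (K * n + 1 + C) < (X : ℝ) / Q * (ε / 2) := by
      have h5 : (X : ℝ) / Q * (ε / 2) = X / (2 * Q / ε) := by field_simp
      rw [h5, lt_div_iff₀ (by positivity)]
      exact h3
    have h6 : (0 : ℝ) ≤ J.card := Nat.cast_nonneg _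
    nlinarith
  -- pigeonhole
  have hpig : ((range Q') ×ˢ P.powerset).card * n ≤ J.card := by
    rw [← hK]
    exact_mod_cast hJcard
  let pat : ℤ → ℕ × Finset (Σ _ : ℕ, ℤ) := fun y => ((y % Q').toNat, P.filter fun p => ¬ B p.1 p.2 y)
  have hmaps : ∀ y ∈ J, pat y ∈ (range Q') ×ˢ P.powerset := by
    intro y hy
    show ((y % Q').toNat, P.filter fun p => ¬ B p.1 p.2 y) ∈ _
    rw [Finset.mem_product, Finset.mem_range, Finset.mem_powerset]
    refine ⟨?_, Finset.filter_subset _ _⟩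
    have hQ'z : (0 : ℤ) < Q' := by exact_mod_cast hQ'
    have h3 := Int.emod_nonneg y hQ'z.ne'
    have h4 := Int.emod_lt_of_pos y hQ'z
    show (y % Q').toNat < Q'
    omega
  have hne : ((range Q') ×ˢ P.powerset).Nonempty :=
    ⟨(0, ∅), Finset.mem_product.2 ⟨Finset.mem_range.2 hQ', Finset.empty_mem_powerset _⟩⟩
  obtain ⟨⟨ρ, S⟩, hρS, hfib⟩ := Finset.exists_le_card_fiber_of_mul_le_card_of_maps_to hmaps hne hpig
  obtain ⟨Y, hYsub, hYcard⟩ := Finset.exists_subset_card_eq hfib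
  have hY : ∀ y ∈ Y, (x < y ∧ y ≤ x + X) ∧ y ≡ c [ZMOD Q] ∧ W y ≤ 1 - ε / 2 ∧ (y % Q').toNat = ρ ∧
      (P.filter fun p => ¬ B p.1 p.2 y) = S := by
    intro y hy
    have h1 := hYsub hy
    rw [Finset.mem_filter, hJ, Finset.mem_filter, hI, Finset.mem_filter, Finset.mem_Ioc] at h1
    have h2 : pat y = (ρ, S) := h1.2
    exact ⟨h1.1.1.1, h1.1.1.2, h1.1.2, congrArg Prod.fst h2, congrArg Prod.snd h2⟩
  refine ⟨Y, hYcard, fun y hy => (hY y hy).2.1, ?_, fun i => (T i).filter fun t => (⟨i, t⟩ : Σ _ : ℕ, ℤ) ∈ S, ?_⟩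
  · intro y hy y' hy'
    have h1 := (hY y hy).2.2.2.1
    have h2 := (hY y' hy').2.2.2.1
    have hQ'z : (0 : ℤ) < Q' := by exact_mod_cast hQ'
    have h3 := Int.emod_nonneg y hQ'z.ne'
    have h4 := Int.emod_nonneg y' hQ'z.ne'
    have h5 : y % Q' = y' % Q' := by omega
    exact Int.ModEq.dvd (show y' ≡ y [ZMOD Q'] from h5.symm)
  · intro i hi
    refine ⟨Finset.filter_subset _ _, ?_, ?_⟩
    · obtain ⟨y, hy⟩ : Y.Nonempty := by rw [← Finset.card_pos, hYcard]; exact hn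
      have h1 := hY y hy
      have h2 : ((T i).filter fun t => (⟨i, t⟩ : Σ _ : ℕ, ℤ) ∈ S) = (T i).filter fun t => ¬ B i t y := by
        refine Finset.filter_congr fun t ht => ?_
        rw [← h1.2.2.2.2, Finset.mem_filter]
        constructor
        · intro h; exact h.2
        · intro h; exact ⟨Finset.mem_sigma.2 ⟨Finset.mem_range.2 hi, ht⟩, h⟩
      show ε / 2 * ((T i).card : ℝ) ≤ (((T i).filter fun t => (⟨i, t⟩ : Σ _ : ℕ, ℤ) ∈ S).card : ℝ)
      rw [h2]
      have h3 := Finset.card_filter_add_card_filter_not (s := T i) (fun t => B i t y)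
      have h4 : (((T i).filter fun t => B i t y).card : ℝ) / (T i).card ≤ 1 - ε / 2 := by
        refine le_trans ?_ h1.2.2.1
        exact Finset.single_le_sum (f := fun i => (((T i).filter fun t => B i t y).card : ℝ) / (T i).card)
          (fun i _ => by positivity) (Finset.mem_range.2 hi)
      rw [div_le_iff₀ (hcardT i hi)] at h4
      have h5 : (((T i).filter fun t => B i t y).card : ℝ) + (((T i).filter fun t => ¬ B i t y).card : ℝ) =
        (T i).card := by exact_mod_cast h3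
      linarith
    · intro t ht y hy
      have h1 := hY y hy
      rw [Finset.mem_filter, ← h1.2.2.2.2, Finset.mem_filter] at ht
      have h2 : ¬ B i t y := ht.2.2
      exact ⟨fun h => h2 (Or.inl h), fun h => h2 (Or.inr h)⟩

end Pool.Agent.PolD
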